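import Mathlib

namespace Pool.Agent.K4H74.PC

open Finset Set Real

/-- Real scalar product of two complex numbers. -/
def dt (a b : ℂ) : ℝ := a.re * b.re + a.im * b.im

/-- The point at angle `θ` on the circle of radius two around `z0`. -/
noncomputable def cc (z0 : ℂ) (θ : ℝ) : ℂ := ⟨z0.re + 2 * cos θ, z0.im + 2 * sin θ⟩

theorem proj_exists {K : Set ℂ} (hc : IsCompact K) (hK : Convex ℝ K) (hne : K.Nonempty) (c : ℂ) :
    ∃ v ∈ K, ∀ z ∈ K, dt (c - v) (z - v) ≤ 0 := by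
  obtain ⟨v, hv, h⟩ := exists_norm_eq_iInf_of_complete_convex hne hc.isComplete hK c
  refine ⟨v, hv, fun z hz => ?_⟩
  have := (norm_eq_iInf_iff_real_inner_le_zero hK hv).1 h z hz
  refine le_trans (le_of_eq ?_) this
  rw [Complex.inner]
  simp [dt, Complex.mul_re]
  ring

/-- The real inequality behind the local geometry of the projection parametrisation. -/
theorem geo_real {a b L X Y U V D : ℝ} (hab : a ^ 2 + b ^ 2 = 1) (hL : 1 ≤ L)
    (h1 : L * (a * X + b * Y) ≤ 0)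
    (h2 : 0 ≤ L * (a * X + b * Y) + (U * X + V * Y))
    (hS : (X + U) ^ 2 + (Y + V) ^ 2 ≤ 4 * D ^ 2) :
    0 ≤ -(a * X + b * Y) ∧ -(a * X + b * Y) ≤ D ^ 2 ∧ |a * Y - b * X| ≤ 2 * |D| ∧
      (|D| ≤ 1 / 4 → -(a * X + b * Y) ≤ 4 * |D| * |a * Y - b * X| ∧
        0 ≤ (a * Y - b * X) * ((a * V - b * U))) := by
  set H := -(a * X + b * Y) with hH
  set F := a * Y - b * X with hF
  have hH0 : 0 ≤ H := by
    by_contra hneg
    push Not at hneg
    nlinarith
  have hLH : L * H ≤ U * X + V * Y := by rw [hH]; linarith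
  have h3 : U * X + V * Y ≤ D ^ 2 := by nlinarith [sq_nonneg (X - U), sq_nonneg (Y - V)]
  have h4 : H ≤ L * H := by nlinarith
  have h5 : F ^ 2 + H ^ 2 = X ^ 2 + Y ^ 2 := by
    rw [hH, hF]
    have : (a * Y - b * X) ^ 2 + (-(a * X + b * Y)) ^ 2 = (a ^ 2 + b ^ 2) * (X ^ 2 + Y ^ 2) := by
      ring
    rw [this, hab, one_mul]
  have h6 : X ^ 2 + Y ^ 2 + (U ^ 2 + V ^ 2) ≤ 4 * D ^ 2 := by nlinarith
  refine ⟨hH0, by linarith, ?_, ?_⟩
  · apply abs_le_of_sq_le_sq' _ (by positivity) |> abs_le.2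
    nlinarith [sq_abs D, sq_nonneg U, sq_nonneg V, sq_nonneg H]
  · intro hD
    set M := a * U + b * V with hM
    set N := a * V - b * U with hN
    have h7 : M ^ 2 + N ^ 2 = U ^ 2 + V ^ 2 := by
      rw [hM, hN]
      have : (a * U + b * V) ^ 2 + (a * V - b * U) ^ 2 = (a ^ 2 + b ^ 2) * (U ^ 2 + V ^ 2) := by
        ring
      rw [this, hab, one_mul]
    have hMabs : |M| ≤ 2 * |D| := by
      apply abs_le_of_sq_le_sq' _ (by positivity) |> abs_le.2
      nlinarith [sq_abs D, sq_nonneg X, sq_nonneg Y, sq_nonneg N]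
    have hNabs : |N| ≤ 2 * |D| := by
      apply abs_le_of_sq_le_sq' _ (by positivity) |> abs_le.2
      nlinarith [sq_abs D, sq_nonneg X, sq_nonneg Y, sq_nonneg M]
    -- decomposition of the second variational inequality
    have h8 : H * (L + M) ≤ F * N := by
      have e1 : L * (a * X + b * Y) + (U * X + V * Y) =
          -(H * L) + (U * X + V * Y) := by rw [hH]; ring
      have e2 : U * X + V * Y = (a ^ 2 + b ^ 2) * (U * X + V * Y) := by rw [hab, one_mul]
      have e3 : (a ^ 2 + b ^ 2) * (U * X + V * Y) = -(H * M) + F * N := by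
        rw [hH, hM, hF, hN]; ring
      rw [e1, e2, e3] at h2
      linarith
    have hLM : 1 / 2 ≤ L + M := by
      have := neg_abs_le M
      linarith
    have h9 : 0 ≤ F * N := le_trans (mul_nonneg hH0 (by linarith)) h8
    refine ⟨?_, h9⟩
    have h10 : H * (1 / 2) ≤ H * (L + M) := mul_le_mul_of_nonneg_left hLM hH0
    have h11 : F * N ≤ |F| * (2 * |D|) := by
      calc F * N ≤ |F * N| := le_abs_self _
        _ = |F| * |N| := abs_mul _ _
        _ ≤ _ := mul_le_mul_of_nonneg_left hNabs (abs_nonneg _)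
    nlinarith

theorem cos_diff_bound (D : ℝ) : 8 * (1 - cos D) ≤ 4 * D ^ 2 := by
  have := Real.one_sub_sq_div_two_le_cos (x := D)
  linarith

/-- Local geometry of the projection parametrisation. -/
theorem geo {z0 v0 : ℂ} {θ0 a b L : ℝ} (hv0 : (v0.re - z0.re) ^ 2 + (v0.im - z0.im) ^ 2 ≤ 1)
    (hab : a ^ 2 + b ^ 2 = 1) (hL : 1 ≤ L)
    (hr : (cc z0 θ0 - v0).re = L * a) (hi : (cc z0 θ0 - v0).im = L * b)
    {v : ℂ} {θ : ℝ} (h1 : dt (cc z0 θ0 - v0) (v - v0) ≤ 0)
    (h2 : dt (cc z0 θ - v) (v0 - v) ≤ 0) :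
    0 ≤ -(a * (v - v0).re + b * (v - v0).im) ∧
    -(a * (v - v0).re + b * (v - v0).im) ≤ (θ - θ0) ^ 2 ∧
    |a * (v - v0).im - b * (v - v0).re| ≤ 2 * |θ - θ0| ∧
      (|θ - θ0| ≤ 1 / 4 →
        -(a * (v - v0).re + b * (v - v0).im) ≤
          4 * |θ - θ0| * |a * (v - v0).im - b * (v - v0).re| ∧
        0 ≤ (θ - θ0) * (a * (v - v0).im - b * (v - v0).re)) := by
  set X := (v - v0).re with hX
  set Y := (v - v0).im with hY
  set U := ((cc z0 θ - v) - (cc z0 θ0 - v0)).re with hU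
  set V := ((cc z0 θ - v) - (cc z0 θ0 - v0)).im with hV
  set D := θ - θ0 with hD
  have hXU : X + U = 2 * cos θ - 2 * cos θ0 := by
    rw [hX, hU]; simp [cc]; ring
  have hYV : Y + V = 2 * sin θ - 2 * sin θ0 := by
    rw [hY, hV]; simp [cc]; ring
  have hcosD : cos D = cos θ * cos θ0 + sin θ * sin θ0 := by rw [hD, cos_sub]
  have hsinD : sin D = sin θ * cos θ0 - cos θ * sin θ0 := by rw [hD, sin_sub]
  have hSeq : (X + U) ^ 2 + (Y + V) ^ 2 = 8 * (1 - cos D) := by
    rw [hXU, hYV, hcosD]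
    nlinarith [sin_sq_add_cos_sq θ, sin_sq_add_cos_sq θ0]
  have hS : (X + U) ^ 2 + (Y + V) ^ 2 ≤ 4 * D ^ 2 := hSeq ▸ cos_diff_bound D
  have h1' : L * (a * X + b * Y) ≤ 0 := by
    unfold dt at h1
    rw [hr, hi] at h1
    linarith
  have hwr : (cc z0 θ - v).re = L * a + U := by
    rw [hU, Complex.sub_re (cc z0 θ - v) (cc z0 θ0 - v0), hr]; ring
  have hwi : (cc z0 θ - v).im = L * b + V := by
    rw [hV, Complex.sub_im (cc z0 θ - v) (cc z0 θ0 - v0), hi]; ring
  have h2' : 0 ≤ L * (a * X + b * Y) + (U * X + V * Y) := by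
    unfold dt at h2
    rw [hwr, hwi] at h2
    have e1 : (v0 - v).re = -X := by rw [hX]; simp
    have e2 : (v0 - v).im = -Y := by rw [hY]; simp
    rw [e1, e2] at h2
    linarith
  obtain ⟨g1, g2, g3, g4⟩ := geo_real hab hL h1' h2' hS
  refine ⟨g1, g2, g3, fun hD4 => ?_⟩
  obtain ⟨g5, g6⟩ := g4 hD4
  refine ⟨g5, ?_⟩
  set F := a * Y - b * X with hF
  set N := a * V - b * U with hN
  -- cross product with the displacement of the centre points
  have hcrs : L * (F + N) = 4 * sin D -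
      ((v0.re - z0.re) * (Y + V) - (v0.im - z0.im) * (X + U)) := by
    have e1 : L * (F + N) = (L * a) * (Y + V) - (L * b) * (X + U) := by rw [hF, hN]; ring
    rw [e1, ← hr, ← hi]
    have e2 : (cc z0 θ0 - v0).re = 2 * cos θ0 - (v0.re - z0.re) := by simp [cc]; ring
    have e3 : (cc z0 θ0 - v0).im = 2 * sin θ0 - (v0.im - z0.im) := by simp [cc]; ring
    rw [e2, e3, hXU, hYV, hsinD]
    ring
  set m1 := v0.re - z0.re with hm1
  set m2 := v0.im - z0.im with hm2
  set R := m1 * (Y + V) - m2 * (X + U) with hR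
  have hcos0 : 0 ≤ cos D := by
    apply cos_nonneg_of_mem_Icc
    have := abs_le.1 hD4
    constructor <;> linarith [pi_gt_three]
  have hRsq : R ^ 2 ≤ 8 * (1 - cos D) := by
    rw [← hSeq]
    have : R ^ 2 ≤ (m1 ^ 2 + m2 ^ 2) * ((X + U) ^ 2 + (Y + V) ^ 2) := by
      rw [hR]; nlinarith [sq_nonneg (m1 * (X + U) + m2 * (Y + V))]
    nlinarith [sq_nonneg (X + U), sq_nonneg (Y + V)]
  have hRsin : |R| ≤ 4 * |sin D| := by
    apply abs_le_of_sq_le_sq' _ (by positivity) |> abs_le.2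
    have e1 : (4 * |sin D|) ^ 2 = 16 * (sin D) ^ 2 := by rw [mul_pow, sq_abs]; norm_num
    rw [e1, sin_sq]
    nlinarith [cos_le_one D]
  by_contra hneg
  push Not at hneg
  have hFne : F ≠ 0 := by
    rintro h0
    rw [h0] at hneg; simp at hneg
  have hFsq : 0 < F ^ 2 := by positivity
  have hDN : D * N ≤ 0 := by
    by_contra h0
    push Not at h0
    have : (D * F) * (F * N) = F ^ 2 * (D * N) := by ring
    have h5 : 0 < F ^ 2 * (D * N) := mul_pos hFsq h0
    nlinarith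
  have hlt : D * (L * (F + N)) < 0 := by
    have : D * (L * (F + N)) = L * (D * F + D * N) := by ring
    rw [this]
    exact mul_neg_of_pos_of_neg (by linarith) (by linarith)
  have hge : 0 ≤ D * (L * (F + N)) := by
    rw [hcrs]
    have hDabs := abs_le.1 hD4
    rcases le_total 0 D with h0 | h0
    · have hs : 0 ≤ sin D := sin_nonneg_of_nonneg_of_le_pi h0 (by linarith [pi_gt_three])
      rw [abs_of_nonneg hs] at hRsin
      exact mul_nonneg h0 (by linarith [le_abs_self R])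
    · have hs : sin D ≤ 0 := sin_nonpos_of_nonpos_of_neg_pi_le h0 (by linarith [pi_gt_three])
      rw [abs_of_nonpos hs] at hRsin
      exact mul_nonneg_of_nonpos_of_nonpos h0 (by linarith [neg_abs_le R])
  linarith

end Pool.Agent.K4H74.PC
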