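import Mathlib
import Pool.Agent.K4H74.PC.Geo

namespace Pool.Agent.K4H74.PC

open Finset Set Real MeasureTheory Measure

theorem seg_frontier {E : Type*} [NormedAddCommGroup E] [NormedSpace ℝ E] {K : Set E} {z z' : E}
    (hz : z ∈ K) (hz' : z' ∉ K) : ∃ s ∈ Icc (0 : ℝ) 1, z + s • (z' - z) ∈ frontier K := by
  by_contra hcon
  push Not at hcon
  have hno : ∀ y ∈ segment ℝ z z', y ∉ frontier K := by
    intro y hy
    rw [segment_eq_image'] at hy
    obtain ⟨s, hs, rfl⟩ := hy
    exact hcon s hs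
  have hsub : segment ℝ z z' ⊆ interior K ∪ (closure K)ᶜ := by
    intro y hy
    by_contra h
    rw [Set.mem_union, not_or] at h
    exact hno y hy ⟨by simpa using h.2, h.1⟩
  have hpre : IsPreconnected (segment ℝ z z') := (convex_segment z z').isPreconnected
  have hdis : Disjoint (interior K) (closure K)ᶜ := by
    rw [Set.disjoint_left]
    intro y hy hy'
    exact hy' (subset_closure (interior_subset hy))
  have hzi : z ∈ interior K := by
    by_contra h
    exact hno z (left_mem_segment ℝ z z') ⟨subset_closure hz, h⟩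
  have := IsPreconnected.subset_left_of_subset_union isOpen_interior
    isClosed_closure.isOpen_compl hdis hsub ⟨z, left_mem_segment ℝ z z', hzi⟩ hpre
  exact hz' (interior_subset (this (right_mem_segment ℝ z z')))

theorem dt_self (z : ℂ) : dt z z = ‖z‖ ^ 2 := by
  rw [← Complex.normSq_eq_norm_sq, Complex.normSq_apply, dt]

theorem norm_sq_re_im (z : ℂ) : ‖z‖ ^ 2 = z.re ^ 2 + z.im ^ 2 := by
  rw [← dt_self, dt]; ring

/-- Uniqueness of the projection. -/
theorem proj_unique {K : Set ℂ} {c v v' : ℂ} (hv : v ∈ K) (hv' : v' ∈ K)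
    (h : ∀ z ∈ K, dt (c - v) (z - v) ≤ 0) (h' : ∀ z ∈ K, dt (c - v') (z - v') ≤ 0) : v = v' := by
  have h1 := h v' hv'
  have h2 := h' v hv
  have h3 : ‖v - v'‖ ^ 2 ≤ 0 := by
    rw [norm_sq_re_im]
    simp only [dt, Complex.sub_re, Complex.sub_im] at h1 h2 ⊢
    nlinarith
  have h4 : ‖v - v'‖ = 0 := by
    have := norm_nonneg (v - v')
    nlinarith
  exact sub_eq_zero.1 (norm_eq_zero.1 h4)

/-- The projection parametrisation comes arbitrarily close to each frontier point. -/
theorem cover_frontier {K : Set ℂ} (hc : IsCompact K) (hK : Convex ℝ K) {z0 : ℂ}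
    (hz0 : ∀ z ∈ K, ‖z - z0‖ ≤ 1) {q : ℂ} (hq : q ∈ frontier K) {ε : ℝ} (hε : 0 < ε) :
    ∃ θ ∈ Icc (-π) π, ∃ v ∈ K, (∀ z ∈ K, dt (cc z0 θ - v) (z - v) ≤ 0) ∧ ‖v - q‖ ≤ ε := by
  have hqK : q ∈ K := hc.isClosed.frontier_subset hq
  have hq2 : q ∈ closure Kᶜ := by
    rw [frontier_eq_closure_inter_closure] at hq
    exact hq.2
  obtain ⟨x, hx, hxq⟩ := Metric.mem_closure_iff.1 hq2 ε hε
  obtain ⟨v, hv, hvi⟩ := proj_exists hc hK ⟨q, hqK⟩ x
  have hvq : ‖v - q‖ ≤ ε := by
    have h1 := hvi q hqK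
    have h2 : ‖v - q‖ ^ 2 ≤ ‖q - x‖ ^ 2 := by
      rw [norm_sq_re_im, norm_sq_re_im]
      simp only [dt, Complex.sub_re, Complex.sub_im] at h1 ⊢
      nlinarith [sq_nonneg (x.re - v.re), sq_nonneg (x.im - v.im)]
    have h3 : ‖v - q‖ ≤ ‖q - x‖ := le_of_sq_le_sq h2 (norm_nonneg _) 
    rw [dist_eq_norm] at hxq
    linarith
  have hw : x - v ≠ 0 := by
    intro h
    rw [sub_eq_zero] at h
    exact hx (h ▸ hv)
  have hwn : 0 < ‖x - v‖ := norm_pos_iff.2 hw
  -- the ray meets the circle of radius two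
  obtain ⟨t, ht, hteq⟩ : ∃ t ∈ Icc (0 : ℝ) (3 / ‖x - v‖), ‖v + (t : ℂ) * (x - v) - z0‖ = 2 := by
    have hcont : Continuous fun t : ℝ => ‖v + (t : ℂ) * (x - v) - z0‖ := by fun_prop
    have h0 : ‖v + ((0 : ℝ) : ℂ) * (x - v) - z0‖ ≤ 2 := by
      simp only [Complex.ofReal_zero, zero_mul, add_zero]
      linarith [hz0 v hv]
    have h1 : 2 ≤ ‖v + ((3 / ‖x - v‖ : ℝ) : ℂ) * (x - v) - z0‖ := by
      have e : ‖((3 / ‖x - v‖ : ℝ) : ℂ) * (x - v)‖ = 3 := by
        rw [norm_mul, Complex.norm_real, Real.norm_of_nonneg (by positivity)]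
        field_simp
      have e2 : v + ((3 / ‖x - v‖ : ℝ) : ℂ) * (x - v) - z0 =
          ((3 / ‖x - v‖ : ℝ) : ℂ) * (x - v) - (z0 - v) := by ring
      rw [e2]
      have := norm_sub_norm_le (((3 / ‖x - v‖ : ℝ) : ℂ) * (x - v)) (z0 - v)
      rw [e, norm_sub_rev z0 v] at this
      linarith [hz0 v hv]
    have := intermediate_value_Icc (by positivity : (0 : ℝ) ≤ 3 / ‖x - v‖) hcont.continuousOn
      (⟨h0, h1⟩ : (2 : ℝ) ∈ Set.Icc _ _)
    obtain ⟨t, ht, h⟩ := this
    exact ⟨t, ht, h⟩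
  set c := v + (t : ℂ) * (x - v) with hcdef
  refine ⟨Complex.arg (c - z0), ⟨(Complex.neg_pi_lt_arg _).le, Complex.arg_le_pi _⟩, v, hv, ?_,
    hvq⟩
  have hcc : cc z0 (Complex.arg (c - z0)) = c := by
    apply Complex.ext
    · have := Complex.norm_mul_cos_arg (c - z0)
      rw [hteq] at this
      simp only [cc]
      rw [this]; simp
    · have := Complex.norm_mul_sin_arg (c - z0)
      rw [hteq] at this
      simp only [cc]
      rw [this]; simp
  intro z hz
  rw [hcc]
  have h1 := hvi z hz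
  have h2 : dt (c - v) (z - v) = t * dt (x - v) (z - v) := by
    rw [hcdef]
    simp [dt]
    ring
  rw [h2]
  exact mul_nonpos_of_nonneg_of_nonpos ht.1 h1

/-- The diameter of a convex compact set is at most the length of its boundary. -/
theorem diam_le_length {K : Set ℂ} (hc : IsCompact K) (hK : Convex ℝ K) {p q : ℂ} (hp : p ∈ K)
    (hq : q ∈ K) : ENNReal.ofReal ‖q - p‖ ≤ μH[1] (frontier K) := by
  rcases eq_or_ne q p with hpq | hpq
  · rw [hpq]; simp
  have hd : 0 < ‖q - p‖ := norm_pos_iff.2 (sub_ne_zero.2 hpq)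
  set d : ℝ := ‖q - p‖ with hdd
  set u : ℂ := (((1 / d : ℝ)) : ℂ) * (q - p) with hu
  have hdsq : d ^ 2 = (q.re - p.re) ^ 2 + (q.im - p.im) ^ 2 := by
    rw [hdd, norm_sq_re_im]; simp
  have hu1 : u.re = (q.re - p.re) / d := by rw [hu]; simp; ring
  have hu2 : u.im = (q.im - p.im) / d := by rw [hu]; simp; ring
  have hunit : u.re ^ 2 + u.im ^ 2 = 1 := by
    rw [hu1, hu2, div_pow, div_pow, ← add_div, ← hdsq]
    field_simp
  set L : ℂ → ℝ := fun z => dt z u with hL
  have hLip : LipschitzWith 1 L := by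
    refine LipschitzWith.of_dist_le_mul fun a b => ?_
    rw [NNReal.coe_one, one_mul, Real.dist_eq, dist_eq_norm]
    have e : L a - L b = dt (a - b) u := by simp [hL, dt]; ring
    rw [e]
    apply abs_le_of_sq_le_sq _ (norm_nonneg _) 
    rw [norm_sq_re_im]
    have : dt (a - b) u ^ 2 ≤ ((a - b).re ^ 2 + (a - b).im ^ 2) * (u.re ^ 2 + u.im ^ 2) := by
      simp only [dt]
      nlinarith [sq_nonneg ((a - b).re * u.im - (a - b).im * u.re)]
    rwa [hunit, mul_one] at this
  have hLq : L q - L p = d := by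
    simp only [hL, dt]
    rw [hu1, hu2]
    field_simp
    rw [hdsq]; ring
  -- boundedness
  obtain ⟨R, hR⟩ := hc.isBounded.exists_norm_le
  have hR0 : 0 ≤ R := le_trans (norm_nonneg _) (hR p hp)
  have hsub : Icc (L p) (L q) ⊆ L '' frontier K := by
    intro s hs
    set τ : ℝ := (s - L p) / d with hτ
    have hτ0 : 0 ≤ τ := div_nonneg (by linarith [hs.1]) hd.le
    have hτ1 : τ ≤ 1 := by
      rw [hτ, div_le_one hd]; linarith [hs.2]
    set z : ℂ := p + τ • (q - p) with hz
    have hzK : z ∈ K := by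
      have := hK hp hq (by linarith : 0 ≤ 1 - τ) hτ0 (by ring)
      convert this using 1
      rw [hz, smul_sub, sub_smul, one_smul]
      abel
    have hLz : L z = s := by
      have e : L z = L p + τ * (L q - L p) := by
        simp [hL, hz, dt]; ring
      rw [e, hLq, hτ]
      field_simp
      ring
    set e : ℂ := ⟨-u.im, u.re⟩ with he
    have hen : ‖e‖ = 1 := by
      have : ‖e‖ ^ 2 = 1 := by
        rw [norm_sq_re_im, he]; simp only; linarith
      have h0 := norm_nonneg e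
      nlinarith
    have hout : z + ((2 * R + 1 : ℝ)) • e ∉ K := by
      intro hmem
      have h1 := hR _ hmem
      have h2 := hR z hzK
      have h3 : ‖((2 * R + 1 : ℝ)) • e‖ ≤ ‖z + ((2 * R + 1 : ℝ)) • e‖ + ‖z‖ := by
        have := norm_sub_le (z + ((2 * R + 1 : ℝ)) • e) z
        simpa using this
      rw [norm_smul, hen, Real.norm_of_nonneg (by linarith)] at h3
      linarith
    obtain ⟨σ, hσ, hfr⟩ := seg_frontier hzK hout
    refine ⟨_, hfr, ?_⟩
    have : L (z + σ • (z + (2 * R + 1 : ℝ) • e - z)) = L z := by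
      simp [hL, dt, he]; ring
    rw [this, hLz]
  calc ENNReal.ofReal d = volume (Icc (L p) (L q)) := by rw [Real.volume_Icc, hLq]
    _ ≤ volume (L '' frontier K) := measure_mono hsub
    _ = μH[1] (L '' frontier K) := by rw [hausdorffMeasure_real]
    _ ≤ _ := by
      have := hLip.hausdorffMeasure_image_le (d := 1) zero_le_one (frontier K)
      simpa using this

end Pool.Agent.K4H74.PC
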