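import Mathlib

namespace Pool.Agent.K4H74.PC

open Finset Set

/-- A positive averaging scheme on `[-1,1]`: nodes `x j`, weights `p j`, second moment at most `δ`,
first moments at most `δ` at the two end points. -/
structure Scheme {ι : Type*} [Fintype ι] (x : ι → ℝ) (p : ι → ℝ → ℝ) (δ : ℝ) : Prop where
  node : ∀ j, x j ∈ Icc (-1 : ℝ) 1
  cont : ∀ j, Continuous (p j)
  nonneg : ∀ j, ∀ y ∈ Icc (-1 : ℝ) 1, 0 ≤ p j y
  sum_one : ∀ y ∈ Icc (-1 : ℝ) 1, ∑ j, p j y = 1
  moment : ∀ y ∈ Icc (-1 : ℝ) 1, ∑ j, p j y * (x j - y) ^ 2 ≤ δ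
  right : ∑ j, p j 1 * (1 - x j) ≤ δ
  left : ∑ j, p j (-1) * (1 + x j) ≤ δ

theorem Scheme.reflect {ι : Type*} [Fintype ι] {x : ι → ℝ} {p : ι → ℝ → ℝ} {δ : ℝ}
    (h : Scheme x p δ) : Scheme (fun j => - x j) (fun j y => p j (-y)) δ where
  node j := by
    have := h.node j
    constructor <;> [linarith [this.2]; linarith [this.1]]
  cont j := (h.cont j).comp continuous_neg
  nonneg j y hy := h.nonneg j _ ⟨by linarith [hy.2], by linarith [hy.1]⟩
  sum_one y hy := h.sum_one _ ⟨by linarith [hy.2], by linarith [hy.1]⟩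
  moment y hy := by
    refine le_trans (le_of_eq ?_) (h.moment (-y) ⟨by linarith [hy.2], by linarith [hy.1]⟩)
    refine Finset.sum_congr rfl fun j _ => ?_
    ring
  right := by
    refine le_trans (le_of_eq ?_) h.left
    refine Finset.sum_congr rfl fun j _ => ?_
    ring
  left := by
    refine le_trans (le_of_eq ?_) h.right
    refine Finset.sum_congr rfl fun j _ => ?_
    ring_nf

theorem cover_aux {ι : Type*} [Fintype ι] {x : ι → ℝ} {p : ι → ℝ → ℝ} {δ : ℝ}
    (h : Scheme x p δ) {A b : ℝ} (hA : 0 ≤ A) (hb : 0 < b) (hb1 : b ≤ 1)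
    {F H : ι → ℝ} {x0 : ℝ} (hx0 : x0 ∈ Icc (-1 : ℝ) 1)
    (hH : ∀ j, H j ≤ A * (x j - x0) ^ 2)
    (hF : ∀ j, |F j| ≤ A * |x j - x0|)
    (hloc : ∀ j, |x j - x0| ≤ b → H j ≤ A * |x j - x0| * |F j| ∧ 0 ≤ (x j - x0) * F j)
    (hg : ∑ j, p j x0 * F j ≤ 0) :
    ∃ y ∈ Icc (-1 : ℝ) 1, |∑ j, p j y * F j| ≤ (4 * A / b) * δ ∧
      ∑ j, p j y * H j ≤ (4 * A + 4 * A ^ 2) * δ := by
  have hδ : 0 ≤ δ := by
    refine le_trans ?_ (h.moment x0 hx0)
    exact Finset.sum_nonneg fun j _ => mul_nonneg (h.nonneg j _ hx0) (sq_nonneg _)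
  have hAb : 4 * A ≤ 4 * A / b := by
    rw [le_div_iff₀ hb]; nlinarith
  have hAb0 : 0 ≤ 4 * A / b := by positivity
  set g : ℝ → ℝ := fun y => ∑ j, p j y * F j with hgdef
  have hgc : Continuous g := by
    refine continuous_finsetSum _ fun j _ => (h.cont j).mul continuous_const
  -- sign information
  have hFpos : ∀ j, x0 ≤ x j → x j ≤ x0 + b → 0 ≤ F j := by
    intro j h1 h2
    rcases eq_or_lt_of_le h1 with h3 | h3
    · have := hF j
      rw [← h3] at this
      simp at this
      rw [this]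
    · have h4 := (hloc j (by rw [abs_of_nonneg (by linarith)]; linarith)).2
      by_contra hneg
      push Not at hneg
      nlinarith
  set x1 : ℝ := min (x0 + b / 2) 1 with hx1
  have hx01 : x0 ≤ x1 := le_min (by linarith) hx0.2
  have hx1m : x1 ∈ Icc (-1 : ℝ) 1 := ⟨le_trans hx0.1 hx01, min_le_right _ _⟩
  have hx1b : x1 ≤ x0 + b / 2 := min_le_left _ _
  have hg1 : -((4 * A / b) * δ) ≤ g x1 := by
    rcases le_total (x0 + b / 2) 1 with hc | hc
    · have hx1e : x1 = x0 + b / 2 := min_eq_left hc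
      have key : ∀ j, -((4 * A / b) * (x j - x1) ^ 2) ≤ F j := by
        intro j
        have hsq : 0 ≤ (4 * A / b) * (x j - x1) ^ 2 := by positivity
        by_cases h1 : x0 ≤ x j ∧ x j ≤ x0 + b
        · linarith [hFpos j h1.1 h1.2]
        · have hfar : b / 2 ≤ |x j - x1| ∧ |x j - x0| ≤ 2 * |x j - x1| := by
            by_cases h2 : x0 ≤ x j
            · have h3 : x0 + b < x j := by
                by_contra h4; push Not at h4; exact h1 ⟨h2, h4⟩
              rw [abs_of_nonneg (by linarith : 0 ≤ x j - x1),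
                abs_of_nonneg (by linarith : 0 ≤ x j - x0)]
              constructor <;> linarith
            · push Not at h2
              rw [abs_of_nonpos (by linarith : x j - x1 ≤ 0),
                abs_of_nonpos (by linarith : x j - x0 ≤ 0)]
              constructor <;> linarith
          have hFj := hF j
          have h5 : -(A * |x j - x0|) ≤ F j := by linarith [neg_abs_le (F j)]
          have h6 : A * |x j - x0| ≤ (4 * A / b) * (x j - x1) ^ 2 := by
            rw [← sq_abs (x j - x1)]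
            have h7 : A * |x j - x0| ≤ A * (2 * |x j - x1|) :=
              mul_le_mul_of_nonneg_left hfar.2 hA
            have h8 : A * (2 * |x j - x1|) ≤ (4 * A / b) * |x j - x1| ^ 2 := by
              rw [div_mul_eq_mul_div, le_div_iff₀ hb]
              nlinarith [mul_nonneg (mul_nonneg hA (abs_nonneg (x j - x1)))
                (sub_nonneg.2 hfar.1)]
            linarith
          linarith
      have : -((4 * A / b) * ∑ j, p j x1 * (x j - x1) ^ 2) ≤ g x1 := by
        rw [Finset.mul_sum, ← Finset.sum_neg_distrib]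
        refine Finset.sum_le_sum fun j _ => ?_
        have := mul_le_mul_of_nonneg_left (key j) (h.nonneg j x1 hx1m)
        calc _ = p j x1 * -((4 * A / b) * (x j - x1) ^ 2) := by ring
          _ ≤ _ := this
      have h2 := mul_le_mul_of_nonneg_left (h.moment x1 hx1m) hAb0
      linarith
    · have hx1e : x1 = 1 := min_eq_right hc
      have key : ∀ j, -(A * (1 - x j)) ≤ F j := by
        intro j
        have hn := h.node j
        by_cases h1 : x0 ≤ x j
        · have := hFpos j h1 (by linarith [hn.2])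
          have : 0 ≤ A * (1 - x j) := mul_nonneg hA (by linarith [hn.2])
          linarith
        · push Not at h1
          have hFj := hF j
          rw [abs_of_nonpos (by linarith : x j - x0 ≤ 0)] at hFj
          have h5 : -(A * -(x j - x0)) ≤ F j := by linarith [neg_abs_le (F j)]
          have h6 : A * -(x j - x0) ≤ A * (1 - x j) :=
            mul_le_mul_of_nonneg_left (by linarith [hx0.2]) hA
          linarith
      have h1 : -(A * ∑ j, p j 1 * (1 - x j)) ≤ g 1 := by
        rw [Finset.mul_sum, ← Finset.sum_neg_distrib]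
        refine Finset.sum_le_sum fun j _ => ?_
        have := mul_le_mul_of_nonneg_left (key j) (h.nonneg j 1 (by simp))
        calc _ = p j 1 * -(A * (1 - x j)) := by ring
          _ ≤ _ := this
      have h2 := mul_le_mul_of_nonneg_left h.right hA
      have h3 : A * δ ≤ (4 * A / b) * δ := mul_le_mul_of_nonneg_right (by linarith) hδ
      rw [hx1e]
      linarith
  -- choose the point
  obtain ⟨y, hy, hgy0, hgy1⟩ : ∃ y ∈ Icc x0 x1, g y ≤ 0 ∧ -((4 * A / b) * δ) ≤ g y := by
    rcases le_total (g x1) 0 with hc | hc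
    · exact ⟨x1, ⟨hx01, le_rfl⟩, hc, hg1⟩
    · have := intermediate_value_Icc hx01 hgc.continuousOn (⟨hg, hc⟩ : (0 : ℝ) ∈ Icc (g x0) (g x1))
      obtain ⟨y, hy, hy0⟩ := this
      refine ⟨y, hy, hy0.le, ?_⟩
      rw [hy0]
      have : 0 ≤ (4 * A / b) * δ := mul_nonneg hAb0 hδ
      linarith
  have hym : y ∈ Icc (-1 : ℝ) 1 := ⟨le_trans hx0.1 hy.1, le_trans hy.2 hx1m.2⟩
  refine ⟨y, hym, ?_, ?_⟩
  · rw [abs_le]
    refine ⟨hgy1, le_trans hgy0 (mul_nonneg hAb0 hδ)⟩
  · set a : ℝ := y - x0 with ha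
    have ha0 : 0 ≤ a := by linarith [hy.1]
    have hab : a ≤ b / 2 := by linarith [hy.2]
    have key : ∀ j, H j ≤ (4 * A + 4 * A ^ 2) * (x j - y) ^ 2 + 2 * A * a * F j := by
      intro j
      have hxj : x j - x0 = (x j - y) + a := by rw [ha]; ring
      rcases le_or_gt a |x j - y| with hc | hc
      · have h1 : |x j - x0| ≤ 2 * |x j - y| := by
          rw [hxj]
          calc |x j - y + a| ≤ |x j - y| + |a| := abs_add_le _ _
            _ ≤ _ := by rw [abs_of_nonneg ha0]; linarith
        have h2 : (x j - x0) ^ 2 ≤ 4 * (x j - y) ^ 2 := by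
          rw [← sq_abs (x j - x0), ← sq_abs (x j - y)]
          nlinarith [abs_nonneg (x j - x0), abs_nonneg (x j - y)]
        have h3 : H j ≤ 4 * A * (x j - y) ^ 2 := by
          refine le_trans (hH j) ?_
          have := mul_le_mul_of_nonneg_left h2 hA
          linarith
        have h4 : -(4 * A ^ 2 * (x j - y) ^ 2) ≤ 2 * A * a * F j := by
          have h5 : -(A * (2 * |x j - y|)) ≤ F j := by
            have := hF j
            have h6 := mul_le_mul_of_nonneg_left h1 hA
            linarith [neg_abs_le (F j)]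
          have h6 := mul_le_mul_of_nonneg_left h5 (by positivity : 0 ≤ 2 * A * a)
          have h7 : 2 * A * a * (A * (2 * |x j - y|)) ≤ 4 * A ^ 2 * (x j - y) ^ 2 := by
            rw [← sq_abs (x j - y)]
            have h8 : a * |x j - y| ≤ |x j - y| ^ 2 := by
              nlinarith [abs_nonneg (x j - y)]
            have h9 := mul_le_mul_of_nonneg_left h8 (by positivity : 0 ≤ 4 * A ^ 2)
            calc _ = 4 * A ^ 2 * (a * |x j - y|) := by ring
              _ ≤ _ := h9
          linarith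
        linarith
      · have h1 : 0 < x j - x0 := by
          rw [hxj]; linarith [neg_abs_le (x j - y)]
        have h2 : x j - x0 ≤ 2 * a := by
          rw [hxj]; linarith [le_abs_self (x j - y)]
        have h3 : |x j - x0| ≤ b := by
          rw [abs_of_pos h1]; linarith
        obtain ⟨h4, h5⟩ := hloc j h3
        have h6 : 0 ≤ F j := hFpos j (by linarith) (by linarith)
        rw [abs_of_pos h1, abs_of_nonneg h6] at h4
        have h7 : A * (x j - x0) * F j ≤ A * (2 * a) * F j :=
          mul_le_mul_of_nonneg_right (mul_le_mul_of_nonneg_left h2 hA) h6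
        have h8 : 0 ≤ (4 * A + 4 * A ^ 2) * (x j - y) ^ 2 := by positivity
        linarith
    calc ∑ j, p j y * H j ≤ ∑ j, p j y * ((4 * A + 4 * A ^ 2) * (x j - y) ^ 2 + 2 * A * a * F j) :=
          Finset.sum_le_sum fun j _ => mul_le_mul_of_nonneg_left (key j) (h.nonneg j y hym)
      _ = (4 * A + 4 * A ^ 2) * (∑ j, p j y * (x j - y) ^ 2) + 2 * A * a * g y := by
          rw [hgdef, Finset.mul_sum, Finset.mul_sum, ← Finset.sum_add_distrib]
          refine Finset.sum_congr rfl fun j _ => ?_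
          ring
      _ ≤ (4 * A + 4 * A ^ 2) * δ + 0 := by
          refine add_le_add (mul_le_mul_of_nonneg_left (h.moment y hym) (by positivity)) ?_
          exact mul_nonpos_of_nonneg_of_nonpos (by positivity) hgy0
      _ = _ := by ring

/-- **Covering lemma.** -/
theorem cover {ι : Type*} [Fintype ι] {x : ι → ℝ} {p : ι → ℝ → ℝ} {δ : ℝ}
    (h : Scheme x p δ) {A b : ℝ} (hA : 0 ≤ A) (hb : 0 < b) (hb1 : b ≤ 1)
    {F H : ι → ℝ} {x0 : ℝ} (hx0 : x0 ∈ Icc (-1 : ℝ) 1)
    (hH : ∀ j, H j ≤ A * (x j - x0) ^ 2)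
    (hF : ∀ j, |F j| ≤ A * |x j - x0|)
    (hloc : ∀ j, |x j - x0| ≤ b → H j ≤ A * |x j - x0| * |F j| ∧ 0 ≤ (x j - x0) * F j) :
    ∃ y ∈ Icc (-1 : ℝ) 1, |∑ j, p j y * F j| ≤ (4 * A / b) * δ ∧
      ∑ j, p j y * H j ≤ (4 * A + 4 * A ^ 2) * δ := by
  rcases le_total (∑ j, p j x0 * F j) 0 with hc | hc
  · exact cover_aux h hA hb hb1 hx0 hH hF hloc hc
  · have habs : ∀ j, |-x j - -x0| = |x j - x0| := by
      intro j
      rw [show -x j - -x0 = -(x j - x0) by ring, abs_neg]
    obtain ⟨y, hy, h1, h2⟩ := cover_aux h.reflect (F := fun j => - F j) (H := H) (x0 := -x0)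
      hA hb hb1 ⟨by linarith [hx0.2], by linarith [hx0.1]⟩
      (fun j => by
        refine le_trans (hH j) (le_of_eq ?_)
        ring)
      (fun j => by
        simp only [habs, abs_neg]; exact hF j)
      (fun j hj => by
        simp only [habs, abs_neg] at hj ⊢
        refine ⟨(hloc j hj).1, ?_⟩
        refine le_trans (hloc j hj).2 (le_of_eq ?_)
        ring)
      (by simpa using hc)
    refine ⟨-y, ⟨by linarith [hy.2], by linarith [hy.1]⟩, ?_, h2⟩
    refine le_trans (le_of_eq ?_) h1
    rw [← abs_neg, ← Finset.sum_neg_distrib]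
    congr 1
    refine Finset.sum_congr rfl fun j _ => ?_
    ring

end Pool.Agent.K4H74.PC
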