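import Mathlib
import Pool.Agent.K4H74.PC.Cov

namespace Pool.Agent.K4H74.PC

open Finset Set Real

/-- The squared modulus of a trigonometric sum with real coefficients. -/
noncomputable def GG (c : ℕ → ℝ) (m : ℕ) (s : ℝ) : ℝ :=
  ∑ k ∈ range m, ∑ l ∈ range m, c k * c l * cos (((k : ℤ) - (l : ℤ) : ℤ) * s)

theorem GG_eq (c : ℕ → ℝ) (m : ℕ) (s : ℝ) :
    GG c m s = (∑ k ∈ range m, c k * cos (k * s)) ^ 2 +
      (∑ k ∈ range m, c k * sin (k * s)) ^ 2 := by
  unfold GG
  rw [sq, sq, Finset.sum_mul_sum, Finset.sum_mul_sum, ← Finset.sum_add_distrib]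
  refine Finset.sum_congr rfl fun k _ => ?_
  rw [← Finset.sum_add_distrib]
  refine Finset.sum_congr rfl fun l _ => ?_
  push_cast
  rw [sub_mul, cos_sub]
  ring

theorem GG_nonneg (c : ℕ → ℝ) (m : ℕ) (s : ℝ) : 0 ≤ GG c m s := by
  rw [GG_eq]; positivity

theorem sum_cos_zero {N : ℕ} (hN : 0 < N) {d : ℤ} (hd : ¬ (N : ℤ) ∣ d) (φ : ℝ) :
    ∑ j ∈ range N, cos (φ + d * (2 * π * j / N)) = 0 := by
  have hN' : (N : ℂ) ≠ 0 := by exact_mod_cast hN.ne'
  set w : ℂ := Complex.exp (2 * π * Complex.I * d / N) with hw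
  have hwN : w ^ N = 1 := by
    rw [hw, ← Complex.exp_nat_mul, Complex.exp_eq_one_iff]
    refine ⟨d, ?_⟩
    field_simp
  have hw1 : w ≠ 1 := by
    intro h
    rw [hw, Complex.exp_eq_one_iff] at h
    obtain ⟨n, hn⟩ := h
    have h2 : (2 * π * Complex.I : ℂ) ≠ 0 := by
      simp [pi_ne_zero, Complex.I_ne_zero]
    have h3 : (d : ℂ) = n * N := by
      field_simp at hn
      have := mul_left_cancel₀ h2 (a := 2 * π * Complex.I) (b := (d : ℂ)) (c := N * n)
        (by linear_combination (2 * π * Complex.I) * hn)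
      rw [this]; ring
    apply hd
    refine ⟨n, ?_⟩
    have : d = n * N := by exact_mod_cast h3
    rw [this]; ring
  have hsum : ∑ j ∈ range N, w ^ j = 0 := by
    rw [geom_sum_eq hw1, hwN]; simp
  have : ∑ j ∈ range N, cos (φ + d * (2 * π * j / N)) =
      (Complex.exp (φ * Complex.I) * ∑ j ∈ range N, w ^ j).re := by
    rw [Finset.mul_sum, Complex.re_sum]
    refine Finset.sum_congr rfl fun j _ => ?_
    rw [hw, ← Complex.exp_nat_mul, ← Complex.exp_add]
    have e : (φ : ℂ) * Complex.I + j * (2 * π * Complex.I * d / N) =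
        ((φ + d * (2 * π * j / N) : ℝ) : ℂ) * Complex.I := by
      push_cast
      ring
    rw [e, Complex.exp_ofReal_mul_I_re]
  rw [this, hsum]
  simp

theorem sum_GG {N m : ℕ} (hm : m ≤ N) (hN : 0 < N) (c : ℕ → ℝ) (φ : ℝ) (e : ℤ)
    (he : e = 1 ∨ e = -1) :
    ∑ j ∈ range N, GG c m (φ + e * (2 * π * j / N)) = N * ∑ k ∈ range m, c k ^ 2 := by
  unfold GG
  rw [Finset.sum_comm, Finset.mul_sum]
  refine Finset.sum_congr rfl fun k hk => ?_
  rw [Finset.sum_comm]
  have hkm := Finset.mem_range.1 hk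
  rw [Finset.sum_eq_single k]
  · simp only [sub_self, Int.cast_zero, zero_mul, cos_zero, mul_one, Finset.sum_const,
      Finset.card_range, nsmul_eq_mul]
    ring
  · intro l hl hlk
    have hlm := Finset.mem_range.1 hl
    rw [← Finset.mul_sum]
    have : ∑ j ∈ range N, cos (((k : ℤ) - (l : ℤ) : ℤ) * (φ + e * (2 * π * j / N))) = 0 := by
      have h := sum_cos_zero hN (d := ((k : ℤ) - l) * e) ?_ (((k : ℤ) - (l : ℤ) : ℤ) * φ)
      · rw [← h]
        refine Finset.sum_congr rfl fun j _ => ?_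
        congr 1
        push_cast
        ring
      · intro hdvd
        have h1 : (N : ℤ) ∣ ((k : ℤ) - l) := by
          rcases he with rfl | rfl
          · simpa using hdvd
          · rw [mul_neg_one, dvd_neg] at hdvd
            exact hdvd
        have h2 : |((k : ℤ) - l)| < N := by rw [abs_lt]; omega
        have h3 := Int.eq_zero_of_abs_lt_dvd h1 h2
        omega
    rw [this, mul_zero]
  · intro h; exact absurd hk h

/-- Backward difference of a coefficient sequence. -/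
def bd (a : ℕ → ℝ) : ℕ → ℝ
  | 0 => a 0
  | k + 1 => a (k + 1) - a k

theorem sum_bd (a f : ℕ → ℝ) (m : ℕ) (ham : a m = 0) :
    ∑ k ∈ range (m + 1), bd a k * f k =
      ∑ k ∈ range m, a k * f k - ∑ k ∈ range m, a k * f (k + 1) := by
  rw [Finset.sum_range_succ']
  have h1 : ∑ k ∈ range m, bd a (k + 1) * f (k + 1) =
      ∑ k ∈ range m, a (k + 1) * f (k + 1) - ∑ k ∈ range m, a k * f (k + 1) := by
    rw [← Finset.sum_sub_distrib]
    refine Finset.sum_congr rfl fun k _ => ?_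
    simp [bd]; ring
  have h2 : ∑ k ∈ range (m + 1), a k * f k = ∑ k ∈ range m, a k * f k := by
    rw [Finset.sum_range_succ, ham]; simp
  rw [Finset.sum_range_succ'] at h2
  rw [h1]
  simp only [bd]
  linarith

theorem GG_bd (a : ℕ → ℝ) (m : ℕ) (ham : a m = 0) (s : ℝ) :
    GG (bd a) (m + 1) s = 2 * (1 - cos s) * GG a m s := by
  rw [GG_eq, GG_eq, sum_bd a (fun k => cos (k * s)) m ham, sum_bd a (fun k => sin (k * s)) m ham]
  set C := ∑ k ∈ range m, a k * cos (k * s) with hC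
  set S := ∑ k ∈ range m, a k * sin (k * s) with hS
  have h1 : ∑ k ∈ range m, a k * cos (((k + 1 : ℕ) : ℝ) * s) = C * cos s - S * sin s := by
    rw [hC, hS, Finset.sum_mul, Finset.sum_mul, ← Finset.sum_sub_distrib]
    refine Finset.sum_congr rfl fun k _ => ?_
    push_cast
    rw [add_mul, one_mul, cos_add]; ring
  have h2 : ∑ k ∈ range m, a k * sin (((k + 1 : ℕ) : ℝ) * s) = S * cos s + C * sin s := by
    rw [hC, hS, Finset.sum_mul, Finset.sum_mul, ← Finset.sum_add_distrib]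
    refine Finset.sum_congr rfl fun k _ => ?_
    push_cast
    rw [add_mul, one_mul, sin_add]; ring
  rw [h1, h2]
  have := sin_sq_add_cos_sq s
  have e : (C - (C * cos s - S * sin s)) ^ 2 + (S - (S * cos s + C * sin s)) ^ 2 =
      (C ^ 2 + S ^ 2) * (1 - 2 * cos s + (sin s ^ 2 + cos s ^ 2)) := by ring
  rw [e, this]
  ring

/-- Triangular coefficients. -/
def tri (r k : ℕ) : ℝ := ((min (k + 1) (2 * r + 1 - k) : ℕ) : ℝ)

theorem tri_end (r : ℕ) : tri r (2 * r + 1) = 0 := by simp [tri]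

theorem bd_tri (r k : ℕ) : bd (tri r) k ^ 2 ≤ 1 := by
  rw [sq_le_one_iff_abs_le_one, abs_le]
  cases k with
  | zero =>
    simp only [bd, tri]
    have h : min (0 + 1) (2 * r + 1 - 0) = 1 := by omega
    rw [h]; norm_num
  | succ k =>
    simp only [bd, tri]
    have h1 : min (k + 1 + 1) (2 * r + 1 - (k + 1)) ≤ min (k + 1) (2 * r + 1 - k) + 1 := by omega
    have h2 : min (k + 1) (2 * r + 1 - k) ≤ min (k + 1 + 1) (2 * r + 1 - (k + 1)) + 1 := by omega
    have h1' : ((min (k + 1 + 1) (2 * r + 1 - (k + 1)) : ℕ) : ℝ) ≤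
        ((min (k + 1) (2 * r + 1 - k) : ℕ) : ℝ) + 1 := by exact_mod_cast h1
    have h2' : ((min (k + 1) (2 * r + 1 - k) : ℕ) : ℝ) ≤
        ((min (k + 1 + 1) (2 * r + 1 - (k + 1)) : ℕ) : ℝ) + 1 := by exact_mod_cast h2
    constructor <;> linarith

theorem sum_bd_tri (r : ℕ) : ∑ k ∈ range (2 * r + 2), bd (tri r) k ^ 2 ≤ 2 * (r + 1) := by
  calc _ ≤ ∑ _k ∈ range (2 * r + 2), (1 : ℝ) := Finset.sum_le_sum fun k _ => bd_tri r k
    _ = _ := by simp; ring

theorem sum_sq_lower (r : ℕ) : ((r : ℝ) + 1) ^ 3 / 3 ≤ ∑ k ∈ range (r + 1), ((k : ℝ) + 1) ^ 2 := by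
  induction r with
  | zero => simp; norm_num
  | succ r ih =>
    rw [Finset.sum_range_succ]
    push_cast
    have : (0 : ℝ) ≤ r := Nat.cast_nonneg r
    nlinarith

theorem sum_tri (r : ℕ) : ((r : ℝ) + 1) ^ 3 / 3 ≤ ∑ k ∈ range (2 * r + 1), tri r k ^ 2 := by
  refine le_trans (sum_sq_lower r) ?_
  calc ∑ k ∈ range (r + 1), ((k : ℝ) + 1) ^ 2 = ∑ k ∈ range (r + 1), tri r k ^ 2 := by
        refine Finset.sum_congr rfl fun k hk => ?_
        have hk := Finset.mem_range.1 hk
        have : min (k + 1) (2 * r + 1 - k) = k + 1 := by omega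
        rw [tri, this]; push_cast; ring
    _ ≤ _ := by
        apply Finset.sum_le_sum_of_subset_of_nonneg
        · intro k hk
          have hk := Finset.mem_range.1 hk
          exact Finset.mem_range.2 (by omega)
        · intro k _ _; positivity

/-- Nodes. -/
noncomputable def psi (r : ℕ) (j : ℕ) : ℝ := 2 * π * j / ((2 * r + 2 : ℕ) : ℝ)

/-- The mass of the triangular coefficients. -/
noncomputable def sig (r : ℕ) : ℝ := ∑ k ∈ range (2 * r + 1), tri r k ^ 2

/-- The positive polynomials. -/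
noncomputable def pj (r : ℕ) (j : ℕ) : Polynomial ℝ :=
  ∑ k ∈ range (2 * r + 1), ∑ l ∈ range (2 * r + 1),
    Polynomial.C (tri r k * tri r l * cos (((k : ℤ) - (l : ℤ) : ℤ) * psi r j) /
      (((2 * r + 2 : ℕ) : ℝ) * sig r)) * Polynomial.Chebyshev.T ℝ ((k : ℤ) - l)

theorem sig_pos (r : ℕ) : 0 < sig r := lt_of_lt_of_le (by positivity) (sum_tri r)

theorem pj_natDegree (r j : ℕ) : (pj r j).natDegree ≤ 2 * r := by
  unfold pj
  refine Polynomial.natDegree_sum_le_of_forall_le _ _ fun k hk => ?_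
  refine Polynomial.natDegree_sum_le_of_forall_le _ _ fun l hl => ?_
  refine le_trans (Polynomial.natDegree_C_mul_le _ _) ?_
  rw [Polynomial.Chebyshev.natDegree_T]
  have hk := Finset.mem_range.1 hk
  have hl := Finset.mem_range.1 hl
  omega

theorem pj_eval (r j : ℕ) (φ : ℝ) : (pj r j).eval (cos φ) =
    (GG (tri r) (2 * r + 1) (φ - psi r j) + GG (tri r) (2 * r + 1) (φ + psi r j)) /
      (2 * (((2 * r + 2 : ℕ) : ℝ) * sig r)) := by
  unfold pj GG
  rw [Polynomial.eval_finsetSum, ← Finset.sum_add_distrib, Finset.sum_div]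
  refine Finset.sum_congr rfl fun k _ => ?_
  rw [Polynomial.eval_finsetSum, ← Finset.sum_add_distrib, Finset.sum_div]
  refine Finset.sum_congr rfl fun l _ => ?_
  rw [Polynomial.eval_mul, Polynomial.eval_C, Polynomial.Chebyshev.T_real_cos]
  rw [mul_sub, mul_add, cos_sub, cos_add]
  field_simp
  ring

theorem sum_GG_minus {r m : ℕ} (hm : m ≤ 2 * r + 2) (c : ℕ → ℝ) (φ : ℝ) :
    ∑ j : Fin (2 * r + 2), GG c m (φ - psi r j) =
      ((2 * r + 2 : ℕ) : ℝ) * ∑ k ∈ range m, c k ^ 2 := by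
  rw [← sum_GG hm (by omega) c φ (-1) (Or.inr rfl),
    ← Fin.sum_univ_eq_sum_range (fun j => GG c m (φ + ((-1 : ℤ) : ℝ) * (2 * π * j / ((2 * r + 2 : ℕ) : ℝ))))]
  refine Finset.sum_congr rfl fun j _ => ?_
  unfold psi
  congr 1
  push_cast
  ring

theorem sum_GG_plus {r m : ℕ} (hm : m ≤ 2 * r + 2) (c : ℕ → ℝ) (φ : ℝ) :
    ∑ j : Fin (2 * r + 2), GG c m (φ + psi r j) =
      ((2 * r + 2 : ℕ) : ℝ) * ∑ k ∈ range m, c k ^ 2 := by
  rw [← sum_GG hm (by omega) c φ 1 (Or.inl rfl),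
    ← Fin.sum_univ_eq_sum_range (fun j => GG c m (φ + ((1 : ℤ) : ℝ) * (2 * π * j / ((2 * r + 2 : ℕ) : ℝ))))]
  refine Finset.sum_congr rfl fun j _ => ?_
  unfold psi
  congr 1
  push_cast
  ring

/-- The total of the weighted kernels against the factor `2 (1 - cos)`. -/
theorem sum_total (r : ℕ) (φ : ℝ) :
    ∑ j : Fin (2 * r + 2),
      (GG (bd (tri r)) (2 * r + 2) (φ - psi r j) + GG (bd (tri r)) (2 * r + 2) (φ + psi r j)) /
        (2 * (((2 * r + 2 : ℕ) : ℝ) * sig r)) ≤ 6 / (r + 1) ^ 2 := by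
  rw [← Finset.sum_div, Finset.sum_add_distrib, sum_GG_minus le_rfl, sum_GG_plus le_rfl]
  have hs := sig_pos r
  have hN : (0 : ℝ) < ((2 * r + 2 : ℕ) : ℝ) := by positivity
  have h1 := sum_bd_tri r
  have h2 := sum_tri r
  rw [← sig] at h2
  set B := ∑ k ∈ range (2 * r + 2), bd (tri r) k ^ 2
  have e : (((2 * r + 2 : ℕ) : ℝ) * B + ((2 * r + 2 : ℕ) : ℝ) * B) /
      (2 * (((2 * r + 2 : ℕ) : ℝ) * sig r)) = B / sig r := by
    field_simp
    ring
  rw [e, div_le_div_iff₀ hs (by positivity)]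
  calc B * (r + 1) ^ 2 ≤ (2 * (r + 1)) * (r + 1) ^ 2 :=
        mul_le_mul_of_nonneg_right h1 (by positivity)
    _ = 6 * (((r : ℝ) + 1) ^ 3 / 3) := by ring
    _ ≤ 6 * sig r := by linarith

theorem scheme_exists (r : ℕ) :
    Scheme (fun j : Fin (2 * r + 2) => cos (psi r j)) (fun j y => (pj r j).eval y)
      (6 / ((r : ℝ) + 1) ^ 2) where
  node j := ⟨neg_one_le_cos _, cos_le_one _⟩
  cont j := (pj r j).continuous
  nonneg j y hy := by
    rw [← cos_arccos hy.1 hy.2, pj_eval]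
    have := sig_pos r
    have := GG_nonneg (tri r) (2 * r + 1) (arccos y - psi r j)
    have := GG_nonneg (tri r) (2 * r + 1) (arccos y + psi r j)
    positivity
  sum_one y hy := by
    have hs := sig_pos r
    have hN : (0 : ℝ) < ((2 * r + 2 : ℕ) : ℝ) := by positivity
    rw [← cos_arccos hy.1 hy.2]
    simp only [pj_eval]
    rw [← Finset.sum_div, Finset.sum_add_distrib, sum_GG_minus (by omega), sum_GG_plus (by omega),
      ← sig]
    field_simp
    ring
  moment y hy := by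
    have hs := sig_pos r
    have hN : (0 : ℝ) < ((2 * r + 2 : ℕ) : ℝ) := by positivity
    rw [← cos_arccos hy.1 hy.2]
    set φ := arccos y
    refine le_trans (Finset.sum_le_sum fun j _ => ?_) (sum_total r φ)
    rw [pj_eval, GG_bd (tri r) (2 * r + 1) (tri_end r), GG_bd (tri r) (2 * r + 1) (tri_end r),
      div_mul_eq_mul_div, div_le_div_iff_of_pos_right (by positivity), add_mul]
    have h1 := GG_nonneg (tri r) (2 * r + 1) (φ - psi r j)
    have h2 := GG_nonneg (tri r) (2 * r + 1) (φ + psi r j)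
    have e1 : (cos (psi r j) - cos φ) ^ 2 ≤ 2 * (1 - cos (φ - psi r j)) := by
      rw [cos_sub]
      nlinarith [sin_sq_add_cos_sq φ, sin_sq_add_cos_sq (psi r j),
        sq_nonneg (sin φ - sin (psi r j))]
    have e2 : (cos (psi r j) - cos φ) ^ 2 ≤ 2 * (1 - cos (φ + psi r j)) := by
      rw [cos_add]
      nlinarith [sin_sq_add_cos_sq φ, sin_sq_add_cos_sq (psi r j),
        sq_nonneg (sin φ + sin (psi r j))]
    have f1 := mul_le_mul_of_nonneg_left e1 h1
    have f2 := mul_le_mul_of_nonneg_left e2 h2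
    linarith
  right := by
    have hs := sig_pos r
    have hN : (0 : ℝ) < ((2 * r + 2 : ℕ) : ℝ) := by positivity
    refine le_trans (Finset.sum_le_sum fun j _ => ?_) (sum_total r 0)
    rw [← cos_zero, pj_eval, GG_bd (tri r) (2 * r + 1) (tri_end r),
      GG_bd (tri r) (2 * r + 1) (tri_end r),
      div_mul_eq_mul_div, div_le_div_iff_of_pos_right (by positivity), add_mul]
    have h1 := GG_nonneg (tri r) (2 * r + 1) (0 - psi r j)
    have h2 := GG_nonneg (tri r) (2 * r + 1) (0 + psi r j)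
    have e1 : cos 0 - cos (psi r j) ≤ 2 * (1 - cos (0 - psi r j)) := by
      rw [zero_sub, cos_neg, cos_zero]
      linarith [cos_le_one (psi r j)]
    have e2 : cos 0 - cos (psi r j) ≤ 2 * (1 - cos (0 + psi r j)) := by
      rw [zero_add, cos_zero]
      linarith [cos_le_one (psi r j)]
    have f1 := mul_le_mul_of_nonneg_left e1 h1
    have f2 := mul_le_mul_of_nonneg_left e2 h2
    linarith
  left := by
    have hs := sig_pos r
    have hN : (0 : ℝ) < ((2 * r + 2 : ℕ) : ℝ) := by positivity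
    refine le_trans (Finset.sum_le_sum fun j _ => ?_) (sum_total r π)
    rw [← cos_pi, pj_eval, GG_bd (tri r) (2 * r + 1) (tri_end r),
      GG_bd (tri r) (2 * r + 1) (tri_end r),
      div_mul_eq_mul_div, div_le_div_iff_of_pos_right (by positivity), add_mul]
    have h1 := GG_nonneg (tri r) (2 * r + 1) (π - psi r j)
    have h2 := GG_nonneg (tri r) (2 * r + 1) (π + psi r j)
    have e1 : 1 + cos (psi r j) ≤ 2 * (1 - cos (π - psi r j)) := by
      rw [cos_pi_sub]
      linarith [neg_one_le_cos (psi r j)]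
    have e2 : 1 + cos (psi r j) ≤ 2 * (1 - cos (π + psi r j)) := by
      rw [add_comm π, cos_add_pi]
      linarith [neg_one_le_cos (psi r j)]
    have f1 := mul_le_mul_of_nonneg_left e1 h1
    have f2 := mul_le_mul_of_nonneg_left e2 h2
    linarith

end Pool.Agent.K4H74.PC
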