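import Mathlib

namespace Pool.Agent.K4H74.PC

open Finset Set

/-- The polygon with vertices `(i/k, i²/k²)`, `0 ≤ i ≤ k`. -/
def K0 (k : ℕ) : Set (ℝ × ℝ) :=
  {p | p.2 ≤ p.1 ∧ ∀ i < k, (2 * (i : ℝ) + 1) / k * p.1 - (i : ℝ) * (i + 1) / (k : ℝ) ^ 2 ≤ p.2}

/-- Counting roots of a polynomial with many sign changes. -/
theorem root_count {k : ℕ} {Ψ : Polynomial ℝ} (hΨ : Ψ ≠ 0) (S : Finset ℝ) (hS : S.card = k + 1)
    (hneg : ∀ s ∈ S, Ψ.eval s < 0)
    (hpos : ∀ s ∈ S, ∀ s' ∈ S, s < s' → ∃ u ∈ Icc s s', 0 < Ψ.eval u) : 2 * k ≤ Ψ.natDegree := by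
  set f := S.orderEmbOfFin hS with hf
  have hmem : ∀ i, f i ∈ S := fun i => S.orderEmbOfFin_mem hS i
  have key : ∀ i : Fin k, ∃ a b : ℝ, f i.castSucc < a ∧ a < b ∧ b < f i.succ ∧
      Ψ.eval a = 0 ∧ Ψ.eval b = 0 := by
    intro i
    have hlt : f i.castSucc < f i.succ := f.strictMono (Fin.castSucc_lt_succ)
    obtain ⟨u, hu, hu0⟩ := hpos _ (hmem _) _ (hmem _) hlt
    have h1 := hneg _ (hmem i.castSucc)
    have h2 := hneg _ (hmem i.succ)
    have hc : Continuous fun t => Ψ.eval t := Ψ.continuous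
    obtain ⟨a, ha, ha0⟩ := intermediate_value_Ioo hu.1 hc.continuousOn
      (⟨h1, hu0⟩ : (0 : ℝ) ∈ Set.Ioo _ _)
    obtain ⟨b, hb, hb0⟩ := intermediate_value_Ioo' hu.2 hc.continuousOn
      (⟨h2, hu0⟩ : (0 : ℝ) ∈ Set.Ioo _ _)
    exact ⟨a, b, ha.1, ha.2.trans hb.1, hb.2, ha0, hb0⟩
  choose a b h1 h2 h3 h4 h5 using key
  have hstep : ∀ i j : Fin k, i < j → f i.succ ≤ f j.castSucc := by
    intro i j hij
    apply f.monotone
    rw [Fin.le_def]
    simpa using hij
  have ha : StrictMono a := fun i j hij =>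
    ((h2 i).trans (h3 i)).trans_le ((hstep i j hij).trans (h1 j).le)
  have hb : StrictMono b := fun i j hij =>
    (h3 i).trans_le ((hstep i j hij).trans ((h1 j).trans (h2 j)).le)
  have hdisj : Disjoint (Finset.univ.image a) (Finset.univ.image b) := by
    rw [Finset.disjoint_left]
    intro x hx hx'
    obtain ⟨i, -, hi⟩ := Finset.mem_image.1 hx
    obtain ⟨j, -, hj⟩ := Finset.mem_image.1 hx'
    have hab : a i = b j := hi.trans hj.symm
    rcases lt_trichotomy i j with h | h | h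
    · have := ((h2 i).trans (h3 i)).trans_le ((hstep i j h).trans ((h1 j).trans (h2 j)).le)
      linarith
    · subst h
      linarith [h2 i]
    · have := (h3 j).trans_le ((hstep j i h).trans (h1 i).le)
      linarith
  have hsub : Finset.univ.image a ∪ Finset.univ.image b ⊆ Ψ.roots.toFinset := by
    intro x hx
    rw [Multiset.mem_toFinset, Polynomial.mem_roots hΨ]
    rcases Finset.mem_union.1 hx with hx | hx
    · obtain ⟨i, -, rfl⟩ := Finset.mem_image.1 hx
      exact h4 i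
    · obtain ⟨i, -, rfl⟩ := Finset.mem_image.1 hx
      exact h5 i
  have hcard := Finset.card_le_card hsub
  rw [Finset.card_union_of_disjoint hdisj, Finset.card_image_of_injective _ ha.injective,
    Finset.card_image_of_injective _ hb.injective, Finset.card_univ, Fintype.card_fin] at hcard
  have := Multiset.toFinset_card_le Ψ.roots
  have := Polynomial.card_roots' Ψ
  omega

theorem lower_core {k n : ℕ} (hk : 2 ≤ k) (hnk : n < k) {P Q : Polynomial ℝ}
    (hP : P.natDegree ≤ n) (hQ : Q.natDegree ≤ n) {ε : ℝ} (hε : ε ≤ 1 / (40 * (k : ℝ) ^ 2))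
    (hV : ∀ i ≤ k, ∃ t ∈ Icc (0 : ℝ) 1,
      |(i : ℝ) / k - P.eval t| < ε ∧ |((i : ℝ) / k) ^ 2 - Q.eval t| < ε)
    (hC : ∀ t ∈ Icc (0 : ℝ) 1, ∃ w ∈ K0 k, |w.1 - P.eval t| < ε ∧ |w.2 - Q.eval t| < ε) :
    False := by
  have hk0 : (0 : ℝ) < k := by positivity
  have hk2 : (2 : ℝ) ≤ k := by exact_mod_cast hk
  have hε' : ε * (40 * (k : ℝ) ^ 2) ≤ 1 := by
    rwa [le_div_iff₀ (by positivity)] at hε
  choose! t ht htP htQ using hV
  have hεpos : 0 < ε := lt_of_le_of_lt (abs_nonneg _) (htP 0 (by omega))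
  set κ : ℝ := 1 / (k : ℝ) with hκ
  have hκ0 : 0 < κ := by positivity
  have hκ1 : κ ≤ 1 / 2 := by
    rw [hκ]; apply one_div_le_one_div_of_le <;> linarith
  have hε2 : 40 * ε ≤ κ ^ 2 := by
    rw [hκ, one_div, inv_pow, ← one_div, le_div_iff₀ (by positivity)]
    linarith
  have hεκ : 40 * ε ≤ κ / 2 := by nlinarith
  have hdiv : ∀ i : ℕ, (i : ℝ) / k = i * κ := fun i => by rw [hκ]; ring
  have hk1 : (k : ℝ) * κ = 1 := by rw [hκ]; field_simp
  have hile : ∀ i ≤ k, (i : ℝ) * κ ≤ 1 := by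
    intro i hi
    have : (i : ℝ) ≤ k := by exact_mod_cast hi
    nlinarith
  -- the auxiliary polynomial
  set Ψ : Polynomial ℝ := Q - P ^ 2 - Polynomial.C (κ ^ 2 / 8) with hΨ
  have hΨe : ∀ s, Ψ.eval s = Q.eval s - (P.eval s) ^ 2 - κ ^ 2 / 8 := by
    intro s; simp [hΨ]
  have hneg : ∀ i ≤ k, Ψ.eval (t i) < 0 := by
    intro i hi
    have h1 := htP i hi
    have h2 := htQ i hi
    rw [hdiv] at h1 h2
    have h3 := abs_lt.1 h1
    have h4 := abs_lt.1 h2
    rw [hΨe]
    set d := (i : ℝ) * κ - P.eval (t i) with hd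
    have hPe : P.eval (t i) = (i : ℝ) * κ - d := by rw [hd]; ring
    have h5 := hile i hi
    have h6 : 0 ≤ (i : ℝ) * κ := by positivity
    rw [hPe]
    have h7 : (i : ℝ) * κ * d ≤ ε := by nlinarith
    nlinarith [sq_nonneg d]
  have hΨ0 : Ψ ≠ 0 := by
    intro h
    have := hneg 0 (by omega)
    rw [h] at this
    simp at this
  have hinj : Set.InjOn t (Finset.range (k + 1)) := by
    intro i hi j hj hij
    have hi' : i ≤ k := by simpa [Nat.lt_succ_iff] using hi
    have hj' : j ≤ k := by simpa [Nat.lt_succ_iff] using hj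
    have h1 := htP i hi'
    have h2 := htP j hj'
    rw [hdiv] at h1 h2
    rw [← hij] at h2
    have h3 := abs_lt.1 h1
    have h4 := abs_lt.1 h2
    by_contra hne
    rcases lt_or_gt_of_ne hne with h | h
    · have : (i : ℝ) + 1 ≤ j := by exact_mod_cast h
      nlinarith
    · have : (j : ℝ) + 1 ≤ i := by exact_mod_cast h
      nlinarith
  set S := (Finset.range (k + 1)).image t with hS
  have hcard : S.card = k + 1 := by
    rw [hS, Finset.card_image_of_injOn hinj, Finset.card_range]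
  have hdeg : Ψ.natDegree ≤ 2 * n := by
    rw [hΨ]
    refine le_trans (Polynomial.natDegree_sub_le _ _) (max_le ?_ (by simp))
    refine le_trans (Polynomial.natDegree_sub_le _ _) (max_le (by omega) ?_)
    refine le_trans Polynomial.natDegree_pow_le ?_
    exact Nat.mul_le_mul_left 2 hP
  have hcount := root_count hΨ0 S hcard (by
    intro s hs
    obtain ⟨i, hi, rfl⟩ := Finset.mem_image.1 hs
    exact hneg i (by simpa [Nat.lt_succ_iff] using hi)) (by
    intro s hs s' hs' hlt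
    obtain ⟨i, hi, rfl⟩ := Finset.mem_image.1 hs
    obtain ⟨j, hj, rfl⟩ := Finset.mem_image.1 hs'
    have hi' : i ≤ k := by simpa [Nat.lt_succ_iff] using hi
    have hj' : j ≤ k := by simpa [Nat.lt_succ_iff] using hj
    have hne : i ≠ j := by rintro rfl; exact lt_irrefl _ hlt
    -- the abscissa of the middle of an edge
    obtain ⟨a, hak, hma⟩ : ∃ a : ℕ, a < k ∧
        ((a : ℝ) + 1 / 2) * κ ∈ Set.uIcc (P.eval (t i)) (P.eval (t j)) := by
      have h1 := htP i hi'
      have h2 := htP j hj'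
      rw [hdiv] at h1 h2
      have h3 := abs_lt.1 h1
      have h4 := abs_lt.1 h2
      rcases lt_or_gt_of_ne hne with h | h
      · refine ⟨i, by omega, ?_⟩
        rw [Set.mem_uIcc]
        left
        have : (i : ℝ) + 1 ≤ j := by exact_mod_cast h
        constructor
        · nlinarith
        · nlinarith
      · refine ⟨j, by omega, ?_⟩
        rw [Set.mem_uIcc]
        right
        have : (j : ℝ) + 1 ≤ i := by exact_mod_cast h
        constructor
        · nlinarith
        · nlinarith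
    obtain ⟨u, hu, hum⟩ := intermediate_value_uIcc (f := fun s => P.eval s)
      (P.continuous.continuousOn) hma
    rw [Set.uIcc_of_le hlt.le] at hu
    refine ⟨u, hu, ?_⟩
    have hu01 : u ∈ Icc (0 : ℝ) 1 :=
      ⟨le_trans (ht i hi').1 hu.1, le_trans hu.2 (ht j hj').2⟩
    obtain ⟨w, hw, hw1, hw2⟩ := hC u hu01
    have hum' : P.eval u = ((a : ℝ) + 1 / 2) * κ := hum
    rw [hum'] at hw1
    have h1 := abs_lt.1 hw1
    have h2 := abs_lt.1 hw2
    have h3 := hw.2 a hak
    have e1 : (2 * (a : ℝ) + 1) / k = 2 * (((a : ℝ) + 1 / 2) * κ) := by rw [hκ]; ring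
    have e2 : (a : ℝ) * (a + 1) / (k : ℝ) ^ 2 = (((a : ℝ) + 1 / 2) * κ) ^ 2 - κ ^ 2 / 4 := by
      rw [hκ]; ring
    rw [e1, e2] at h3
    rw [hΨe, hum']
    set m := ((a : ℝ) + 1 / 2) * κ with hm
    have hm0 : 0 ≤ m := by positivity
    have hm1 : m ≤ 1 := by
      have : (a : ℝ) + 1 ≤ k := by exact_mod_cast hak
      rw [hm]; nlinarith
    set d := w.1 - m with hd
    have hwe : w.1 = m + d := by rw [hd]; ring
    rw [hwe] at h3
    have h7 : -ε ≤ m * d := by nlinarith
    nlinarith)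
  omega

end Pool.Agent.K4H74.PC
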