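import Mathlib
import Pool.Agent.K4H74.PC.LowerCore
import Pool.Agent.K4H74.PC.Bdry

namespace Pool.Agent.K4H74.PC

open Finset Set MeasureTheory Measure
open scoped ENNReal Pointwise

/-- The identification of the plane with the complex numbers. -/
def toC (p : ℝ × ℝ) : ℂ := ⟨p.1, p.2⟩

/-- The same identification as a homeomorphism. -/
noncomputable def toCH : ℝ × ℝ ≃ₜ ℂ := Complex.equivRealProdCLM.symm.toHomeomorph

theorem toCH_apply (p : ℝ × ℝ) : toCH p = toC p := by
  unfold toCH toC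
  apply Complex.ext <;> simp

theorem toCH_coe : (toCH : ℝ × ℝ → ℂ) = toC := funext toCH_apply

theorem toC_frontier (K : Set (ℝ × ℝ)) : toC '' frontier K = frontier (toC '' K) := by
  rw [← toCH_coe, Homeomorph.image_frontier]

theorem toC_convex {K : Set (ℝ × ℝ)} (h : Convex ℝ K) : Convex ℝ (toC '' K) := by
  rintro _ ⟨p, hp, rfl⟩ _ ⟨q, hq, rfl⟩ a b ha hb hab
  refine ⟨a • p + b • q, h hp hq ha hb hab, ?_⟩
  apply Complex.ext <;> simp [toC]

theorem toC_compact {K : Set (ℝ × ℝ)} (h : IsCompact K) : IsCompact (toC '' K) := by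
  rw [← toCH_coe]
  exact h.image toCH.continuous

/-- Length of a plane set: one dimensional Hausdorff measure for the Euclidean distance. -/
noncomputable def len (F : Set (ℝ × ℝ)) : ℝ≥0∞ := μH[1] (toC '' F)

variable {k : ℕ}

theorem K0_convex (k : ℕ) : Convex ℝ (K0 k) := by
  intro p hp q hq a b ha hb hab
  refine ⟨?_, fun i hi => ?_⟩
  · have h1 := mul_le_mul_of_nonneg_left hp.1 ha
    have h2 := mul_le_mul_of_nonneg_left hq.1 hb
    simp only [Prod.snd_add, Prod.smul_snd, smul_eq_mul, Prod.fst_add, Prod.smul_fst]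
    linarith
  · have h1 := mul_le_mul_of_nonneg_left (hp.2 i hi) ha
    have h2 := mul_le_mul_of_nonneg_left (hq.2 i hi) hb
    simp only [Prod.snd_add, Prod.smul_snd, smul_eq_mul, Prod.fst_add, Prod.smul_fst]
    set m := (2 * (i : ℝ) + 1) / k
    set c := (i : ℝ) * (i + 1) / (k : ℝ) ^ 2
    have h3 : (a + b) * c = c := by rw [hab, one_mul]
    nlinarith

theorem K0_closed (k : ℕ) : IsClosed (K0 k) := by
  have : K0 k = {p : ℝ × ℝ | p.2 ≤ p.1} ∩ ⋂ i ∈ Finset.range k,
      {p : ℝ × ℝ | (2 * (i : ℝ) + 1) / k * p.1 - (i : ℝ) * (i + 1) / (k : ℝ) ^ 2 ≤ p.2} := by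
    ext p
    simp [K0]
  rw [this]
  refine (isClosed_le continuous_snd continuous_fst).inter ?_
  refine isClosed_biInter fun i _ => isClosed_le ?_ continuous_snd
  fun_prop

theorem K0_bounds (hk : 2 ≤ k) {p : ℝ × ℝ} (hp : p ∈ K0 k) :
    0 ≤ p.1 ∧ p.1 ≤ 1 ∧ 0 ≤ p.2 ∧ p.2 ≤ 1 := by
  have hk2 : (2 : ℝ) ≤ k := by exact_mod_cast hk
  have hk0 : (0 : ℝ) < k := by linarith
  have h1 := hp.1
  have h2 := hp.2 0 (by omega)
  have h3 := hp.2 (k - 1) (by omega)
  simp only [Nat.cast_zero, mul_zero, zero_add, zero_mul, zero_div, sub_zero] at h2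
  rw [Nat.cast_sub (by omega : 1 ≤ k)] at h3
  simp only [Nat.cast_one] at h3
  have e1 : (2 * ((k : ℝ) - 1) + 1) / k * p.1 - ((k : ℝ) - 1) * ((k : ℝ) - 1 + 1) / (k : ℝ) ^ 2 =
      ((2 * k - 1) * p.1 - (k - 1)) / k := by
    field_simp
    ring
  rw [e1] at h3
  have h4 : (2 * (k : ℝ) - 1) * p.1 - (k - 1) ≤ k * p.2 := by
    rw [div_le_iff₀ hk0] at h3; linarith
  have h5 : p.1 ≤ k * p.2 := by
    have : 1 / (k : ℝ) * p.1 = p.1 / k := by ring
    rw [this, div_le_iff₀ hk0] at h2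
    linarith
  have h6 : 0 ≤ p.1 := by
    by_contra hneg
    push Not at hneg
    nlinarith
  have h7 : p.1 ≤ 1 := by
    by_contra hneg
    push Not at hneg
    nlinarith
  have h8 : 0 ≤ p.2 := by
    by_contra hneg
    push Not at hneg
    nlinarith
  exact ⟨h6, h7, h8, by linarith⟩

theorem K0_compact (hk : 2 ≤ k) : IsCompact (K0 k) := by
  apply Metric.isCompact_of_isClosed_isBounded (K0_closed k)
  refine (Metric.isBounded_Icc ((0 : ℝ), (0 : ℝ)) (1, 1)).subset ?_
  intro p hp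
  obtain ⟨h1, h2, h3, h4⟩ := K0_bounds hk hp
  exact ⟨⟨h1, h3⟩, ⟨h2, h4⟩⟩

/-- The open polygon. -/
def K0o (k : ℕ) : Set (ℝ × ℝ) :=
  {p | p.2 < p.1 ∧ ∀ i < k, (2 * (i : ℝ) + 1) / k * p.1 - (i : ℝ) * (i + 1) / (k : ℝ) ^ 2 < p.2}

theorem K0o_subset (k : ℕ) : K0o k ⊆ interior (K0 k) := by
  apply interior_maximal
  · intro p hp
    exact ⟨hp.1.le, fun i hi => (hp.2 i hi).le⟩
  · have : K0o k = {p : ℝ × ℝ | p.2 < p.1} ∩ ⋂ i ∈ Finset.range k,
        {p : ℝ × ℝ | (2 * (i : ℝ) + 1) / k * p.1 - (i : ℝ) * (i + 1) / (k : ℝ) ^ 2 < p.2} := by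
      ext p
      simp [K0o]
    rw [this]
    refine (isOpen_lt continuous_snd continuous_fst).inter ?_
    refine isOpen_biInter_finset fun i _ => isOpen_lt ?_ continuous_snd
    fun_prop

theorem K0_interior (hk : 2 ≤ k) : (interior (K0 k)).Nonempty := by
  have hk2 : (2 : ℝ) ≤ k := by exact_mod_cast hk
  have hk0 : (0 : ℝ) < k := by linarith
  refine ⟨(1 / 2, 3 / 8), K0o_subset k ⟨by norm_num, fun i hi => ?_⟩⟩
  simp only
  have e : (2 * (i : ℝ) + 1) / k * (1 / 2) - (i : ℝ) * (i + 1) / (k : ℝ) ^ 2 =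
      ((2 * i + 1) * k - 2 * (i * (i + 1))) / (2 * (k : ℝ) ^ 2) := by
    field_simp
  rw [e, div_lt_div_iff₀ (by positivity) (by norm_num)]
  nlinarith [sq_nonneg ((k : ℝ) - 2 * i - 1)]

theorem K0_frontier {p : ℝ × ℝ} (hp : p ∈ frontier (K0 k)) :
    p ∈ K0 k ∧ (p.2 = p.1 ∨
      ∃ i < k, p.2 = (2 * (i : ℝ) + 1) / k * p.1 - (i : ℝ) * (i + 1) / (k : ℝ) ^ 2) := by
  have hpK : p ∈ K0 k := (K0_closed k).frontier_subset hp
  refine ⟨hpK, ?_⟩
  by_contra hcon
  push Not at hcon
  apply hp.2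
  apply K0o_subset
  exact ⟨lt_of_le_of_ne hpK.1 hcon.1, fun i hi => lt_of_le_of_ne (hpK.2 i hi) (hcon.2 i hi).symm⟩

theorem vertex_mem (hk : 2 ≤ k) {i : ℕ} (hi : i ≤ k) :
    ((i : ℝ) / k, ((i : ℝ) / k) ^ 2) ∈ frontier (K0 k) := by
  have hk2 : (2 : ℝ) ≤ k := by exact_mod_cast hk
  have hk0 : (0 : ℝ) < k := by linarith
  have hik : (i : ℝ) ≤ k := by exact_mod_cast hi
  have hmem : ((i : ℝ) / k, ((i : ℝ) / k) ^ 2) ∈ K0 k := by
    refine ⟨?_, fun j hj => ?_⟩
    · simp only
      rw [sq]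
      have h1 : (i : ℝ) / k ≤ 1 := by rw [div_le_one hk0]; exact hik
      have h0 : 0 ≤ (i : ℝ) / k := by positivity
      nlinarith
    · simp only
      have e : (2 * (j : ℝ) + 1) / k * ((i : ℝ) / k) - (j : ℝ) * (j + 1) / (k : ℝ) ^ 2 =
          ((2 * j + 1) * i - j * (j + 1)) / (k : ℝ) ^ 2 := by
        field_simp
      rw [e, div_pow, div_le_div_iff_of_pos_right (by positivity)]
      have h : 0 ≤ ((i : ℤ) - j) * ((i : ℤ) - j - 1) := by
        rcases le_or_gt (i : ℤ) j with h | h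
        · exact mul_nonneg_of_nonpos_of_nonpos (by omega) (by omega)
        · exact mul_nonneg (by omega) (by omega)
      have h' : (0 : ℝ) ≤ ((i : ℝ) - j) * ((i : ℝ) - j - 1) := by exact_mod_cast h
      nlinarith
  refine ⟨subset_closure hmem, fun hint => ?_⟩
  -- a point below the vertex is outside
  rw [mem_interior_iff_mem_nhds, Metric.mem_nhds_iff] at hint
  obtain ⟨ε, hε, hball⟩ := hint
  have hout : ((i : ℝ) / k, ((i : ℝ) / k) ^ 2 - ε / 2) ∈ K0 k := by
    apply hball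
    rw [Metric.mem_ball, Prod.dist_eq, dist_self, Real.dist_eq, sub_sub_cancel_left, abs_neg,
      abs_of_pos (by positivity)]
    exact max_lt hε (by linarith)
  -- use the edge starting or ending at the vertex
  obtain ⟨j, hj, hji⟩ : ∃ j < k, j = i ∨ j + 1 = i := by
    rcases eq_or_lt_of_le hi with h | h
    · exact ⟨i - 1, by omega, Or.inr (by omega)⟩
    · exact ⟨i, h, Or.inl rfl⟩
  have h := hout.2 j hj
  simp only at h
  have e : (2 * (j : ℝ) + 1) / k * ((i : ℝ) / k) - (j : ℝ) * (j + 1) / (k : ℝ) ^ 2 =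
      ((i : ℝ) / k) ^ 2 := by
    rcases hji with rfl | rfl
    · field_simp
      ring
    · push_cast
      field_simp
      ring
  rw [e] at h
  linarith

theorem len_K0_le (hk : 2 ≤ k) : len (frontier (K0 k)) ≤ ENNReal.ofReal 5 := by
  have hk2 : (2 : ℝ) ≤ k := by exact_mod_cast hk
  have hk0 : (0 : ℝ) < k := by linarith
  set v : ℕ → ℂ := fun i => ⟨(i : ℝ) / k, ((i : ℝ) / k) ^ 2⟩ with hv
  have hsub : toC '' frontier (K0 k) ⊆
      segment ℝ (0 : ℂ) ⟨1, 1⟩ ∪ ⋃ i ∈ Finset.range k, segment ℝ (v i) (v (i + 1)) := by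
    rintro _ ⟨p, hp, rfl⟩
    obtain ⟨hpK, h⟩ := K0_frontier hp
    obtain ⟨b1, b2, b3, b4⟩ := K0_bounds hk hpK
    rcases h with h | ⟨i, hi, h⟩
    · left
      rw [segment_eq_image']
      refine ⟨p.1, ⟨b1, b2⟩, ?_⟩
      apply Complex.ext <;> simp [toC, h]
    · right
      rw [Set.mem_iUnion₂]
      refine ⟨i, Finset.mem_range.2 hi, ?_⟩
      rw [segment_eq_image']
      -- abscissa constraints
      have hx0 : (i : ℝ) ≤ k * p.1 := by
        rcases Nat.eq_zero_or_pos i with h0 | h0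
        · rw [h0]; simp; positivity
        · have h1 := hpK.2 (i - 1) (by omega)
          rw [Nat.cast_sub h0, h] at h1
          simp only [Nat.cast_one] at h1
          have e : ((2 * (i : ℝ) + 1) / k * p.1 - (i : ℝ) * (i + 1) / (k : ℝ) ^ 2) -
              ((2 * ((i : ℝ) - 1) + 1) / k * p.1 - ((i : ℝ) - 1) * ((i : ℝ) - 1 + 1) / (k : ℝ) ^ 2) =
              2 * (k * p.1 - i) / (k : ℝ) ^ 2 := by
            field_simp
            ring
          have h2 : 0 ≤ 2 * (k * p.1 - i) / (k : ℝ) ^ 2 := by rw [← e]; linarith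
          have h3 : 0 ≤ 2 * (k * p.1 - i) := by
            by_contra hneg
            push Not at hneg
            have := div_neg_of_neg_of_pos hneg (by positivity : (0 : ℝ) < (k : ℝ) ^ 2)
            linarith
          linarith
      have hx1 : k * p.1 ≤ (i : ℝ) + 1 := by
        rcases Nat.lt_or_ge (i + 1) k with h0 | h0
        · have h1 := hpK.2 (i + 1) h0
          rw [h] at h1
          push_cast at h1
          have e : ((2 * (i : ℝ) + 1) / k * p.1 - (i : ℝ) * (i + 1) / (k : ℝ) ^ 2) -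
              ((2 * ((i : ℝ) + 1) + 1) / k * p.1 - ((i : ℝ) + 1) * ((i : ℝ) + 1 + 1) / (k : ℝ) ^ 2) =
              2 * (i + 1 - k * p.1) / (k : ℝ) ^ 2 := by
            field_simp
            ring
          have h2 : 0 ≤ 2 * (i + 1 - k * p.1) / (k : ℝ) ^ 2 := by rw [← e]; linarith
          have h3 : 0 ≤ 2 * (i + 1 - k * p.1) := by
            by_contra hneg
            push Not at hneg
            have := div_neg_of_neg_of_pos hneg (by positivity : (0 : ℝ) < (k : ℝ) ^ 2)
            linarith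
          linarith
        · have : (i : ℝ) + 1 = k := by
            have : i + 1 = k := by omega
            exact_mod_cast this
          rw [this]
          nlinarith
      refine ⟨k * p.1 - i, ⟨by linarith, by linarith⟩, ?_⟩
      apply Complex.ext
      · simp only [hv, toC, Complex.add_re, Complex.real_smul, Complex.mul_re, Complex.ofReal_re,
          Complex.ofReal_im, Complex.sub_re, Complex.sub_im]
        push_cast
        field_simp
        ring
      · simp only [hv, toC, Complex.add_im, Complex.real_smul, Complex.mul_im, Complex.ofReal_re,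
          Complex.ofReal_im, Complex.sub_re, Complex.sub_im, h]
        push_cast
        field_simp
        ring
  have hseg0 : μH[1] (segment ℝ (0 : ℂ) ⟨1, 1⟩) ≤ ENNReal.ofReal 2 := by
    rw [hausdorffMeasure_segment, edist_dist]
    apply ENNReal.ofReal_le_ofReal
    rw [dist_eq_norm, zero_sub, norm_neg]
    refine le_of_sq_le_sq ?_ (by norm_num)
    rw [norm_sq_re_im]; norm_num
  have hseg : ∀ i ∈ Finset.range k, μH[1] (segment ℝ (v i) (v (i + 1))) ≤
      ENNReal.ofReal (3 / k) := by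
    intro i hi
    have hi := Finset.mem_range.1 hi
    have hik : (i : ℝ) + 1 ≤ k := by exact_mod_cast hi
    rw [hausdorffMeasure_segment, edist_dist]
    apply ENNReal.ofReal_le_ofReal
    rw [dist_eq_norm]
    refine le_of_sq_le_sq ?_ (by positivity)
    rw [norm_sq_re_im]
    simp only [hv, Complex.sub_re, Complex.sub_im]
    push_cast
    have e1 : ((i : ℝ) / k - ((i : ℝ) + 1) / k) ^ 2 = 1 / (k : ℝ) ^ 2 := by
      field_simp; ring
    have e2 : (((i : ℝ) / k) ^ 2 - (((i : ℝ) + 1) / k) ^ 2) ^ 2 =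
        ((2 * i + 1) / (k : ℝ)) ^ 2 / (k : ℝ) ^ 2 := by
      field_simp; ring
    have e3 : (2 * (i : ℝ) + 1) / (k : ℝ) ≤ 2 := by
      rw [div_le_iff₀ hk0]; linarith
    have e4 : 0 ≤ (2 * (i : ℝ) + 1) / (k : ℝ) := by positivity
    rw [e1, e2, div_pow 3, ← add_div, div_le_div_iff_of_pos_right (by positivity)]
    nlinarith
  calc len (frontier (K0 k)) ≤ μH[1] (segment ℝ (0 : ℂ) ⟨1, 1⟩ ∪
        ⋃ i ∈ Finset.range k, segment ℝ (v i) (v (i + 1))) := measure_mono hsub
    _ ≤ μH[1] (segment ℝ (0 : ℂ) ⟨1, 1⟩) +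
        μH[1] (⋃ i ∈ Finset.range k, segment ℝ (v i) (v (i + 1))) := measure_union_le _ _
    _ ≤ ENNReal.ofReal 2 + ∑ i ∈ Finset.range k, ENNReal.ofReal (3 / k) := by
        refine add_le_add hseg0 ?_
        refine le_trans (measure_biUnion_finset_le _ _) ?_
        exact Finset.sum_le_sum hseg
    _ = ENNReal.ofReal 5 := by
        rw [Finset.sum_const, Finset.card_range, nsmul_eq_mul, ← ENNReal.ofReal_natCast,
          ← ENNReal.ofReal_mul (by positivity), ← ENNReal.ofReal_add (by norm_num) (by positivity)]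
        congr 1
        field_simp
        norm_num

theorem one_le_len_K0 (hk : 2 ≤ k) : 1 ≤ len (frontier (K0 k)) := by
  have h0 : toC ((0 : ℝ), (0 : ℝ)) ∈ toC '' K0 k := by
    refine ⟨_, ?_, rfl⟩
    have := (K0_closed k).frontier_subset (vertex_mem hk (Nat.zero_le k))
    simpa using this
  have h1 : toC ((1 : ℝ), (1 : ℝ)) ∈ toC '' K0 k := by
    refine ⟨_, ?_, rfl⟩
    have hk0 : (k : ℝ) ≠ 0 := by
      have : (2 : ℝ) ≤ k := by exact_mod_cast hk
      linarith
    have := (K0_closed k).frontier_subset (vertex_mem hk (le_refl k))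
    rw [div_self hk0] at this
    simpa using this
  have := diam_le_length (toC_compact (K0_compact hk)) (toC_convex (K0_convex k)) h0 h1
  unfold len
  rw [toC_frontier]
  refine le_trans ?_ this
  rw [← ENNReal.ofReal_one]
  apply ENNReal.ofReal_le_ofReal
  refine le_of_sq_le_sq ?_ (norm_nonneg _)
  rw [norm_sq_re_im]
  simp only [toC, Complex.sub_re, Complex.sub_im]
  norm_num

end Pool.Agent.K4H74.PC
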