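import Mathlib
import Pool.Agent.K4H74.PC.Jack
import Pool.Agent.K4H74.PC.Bdry

namespace Pool.Agent.K4H74.PC

open Finset Set Real

theorem norm_cc_sub (z0 : ℂ) (θ : ℝ) : ‖cc z0 θ - z0‖ = 2 := by
  have h : ‖cc z0 θ - z0‖ ^ 2 = 4 := by
    rw [norm_sq_re_im]
    simp only [cc, Complex.sub_re, Complex.sub_im, add_sub_cancel_left]
    nlinarith [sin_sq_add_cos_sq θ]
  have h0 := norm_nonneg (cc z0 θ - z0)
  nlinarith

/-- The local data at a point of the projection parametrisation. -/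
theorem local_data {K : Set ℂ} {z0 : ℂ} (hz0 : ∀ z ∈ K, ‖z - z0‖ ≤ 1) {g : ℝ → ℂ}
    (hgK : ∀ θ, g θ ∈ K) (hg : ∀ θ, ∀ z ∈ K, dt (cc z0 θ - g θ) (z - g θ) ≤ 0) (θ0 : ℝ) :
    ∃ a b : ℝ, a ^ 2 + b ^ 2 = 1 ∧
      (∀ z ∈ K, a * (z - g θ0).re + b * (z - g θ0).im ≤ 0) ∧
      ∀ θ, 0 ≤ -(a * (g θ - g θ0).re + b * (g θ - g θ0).im) ∧
        -(a * (g θ - g θ0).re + b * (g θ - g θ0).im) ≤ (θ - θ0) ^ 2 ∧
        |a * (g θ - g θ0).im - b * (g θ - g θ0).re| ≤ 2 * |θ - θ0| ∧
        (|θ - θ0| ≤ 1 / 4 →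
          -(a * (g θ - g θ0).re + b * (g θ - g θ0).im) ≤
            4 * |θ - θ0| * |a * (g θ - g θ0).im - b * (g θ - g θ0).re| ∧
          0 ≤ (θ - θ0) * (a * (g θ - g θ0).im - b * (g θ - g θ0).re)) := by
  set w := cc z0 θ0 - g θ0 with hw
  have hL : 1 ≤ ‖w‖ := by
    have h1 : cc z0 θ0 - z0 = w + (g θ0 - z0) := by rw [hw]; ring
    have h2 := norm_add_le w (g θ0 - z0)
    rw [← h1, norm_cc_sub] at h2
    linarith [hz0 _ (hgK θ0)]
  have hL0 : 0 < ‖w‖ := by linarith
  have hLsq : ‖w‖ ^ 2 = w.re ^ 2 + w.im ^ 2 := norm_sq_re_im w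
  have hab : (w.re / ‖w‖) ^ 2 + (w.im / ‖w‖) ^ 2 = 1 := by
    rw [div_pow, div_pow, ← add_div, ← hLsq]
    field_simp
  have hr : w.re = ‖w‖ * (w.re / ‖w‖) := by field_simp
  have hi : w.im = ‖w‖ * (w.im / ‖w‖) := by field_simp
  have hv0 : ((g θ0).re - z0.re) ^ 2 + ((g θ0).im - z0.im) ^ 2 ≤ 1 := by
    have h1 := hz0 _ (hgK θ0)
    have h2 : ‖g θ0 - z0‖ ^ 2 ≤ 1 := by
      have := norm_nonneg (g θ0 - z0)
      nlinarith
    rw [norm_sq_re_im] at h2
    simpa using h2
  refine ⟨w.re / ‖w‖, w.im / ‖w‖, hab, ?_, ?_⟩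
  · intro z hz
    have h1 := hg θ0 z hz
    rw [← hw, dt] at h1
    have h2 : ‖w‖ * (w.re / ‖w‖ * (z - g θ0).re + w.im / ‖w‖ * (z - g θ0).im) ≤ 0 := by
      have e : ‖w‖ * (w.re / ‖w‖ * (z - g θ0).re + w.im / ‖w‖ * (z - g θ0).im) =
          w.re * (z - g θ0).re + w.im * (z - g θ0).im := by
        field_simp
      rw [e]; exact h1
    by_contra h3
    push Not at h3
    have := mul_pos hL0 h3
    linarith
  · intro θ
    exact geo hv0 hab hL hr hi (hg θ0 _ (hgK θ)) (hg θ _ (hgK θ0))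

theorem upper_C {K : Set ℂ} (hc : IsCompact K) (hK : Convex ℝ K) (hne : K.Nonempty) {z0 : ℂ}
    (hz0 : ∀ z ∈ K, ‖z - z0‖ ≤ 1) (r : ℕ) :
    ∃ P Q : Polynomial ℝ, P.natDegree ≤ 2 * r ∧ Q.natDegree ≤ 2 * r ∧
      (∀ t ∈ Icc (0 : ℝ) 1, ∃ y ∈ frontier K,
        ‖(⟨P.eval t, Q.eval t⟩ : ℂ) - y‖ ≤ 1501 * (6 / ((r : ℝ) + 1) ^ 2)) ∧
      (∀ q ∈ frontier K, ∃ t ∈ Icc (0 : ℝ) 1,
        ‖(⟨P.eval t, Q.eval t⟩ : ℂ) - q‖ ≤ 1501 * (6 / ((r : ℝ) + 1) ^ 2)) := by
  choose g hgK hg using fun θ : ℝ => proj_exists hc hK hne (cc z0 θ)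
  set δ : ℝ := 6 / ((r : ℝ) + 1) ^ 2 with hδ
  have hδ0 : 0 < δ := by rw [hδ]; positivity
  have hS := scheme_exists r
  rw [← hδ] at hS
  set x : Fin (2 * r + 2) → ℝ := fun j => cos (psi r j) with hx
  set p : Fin (2 * r + 2) → ℝ → ℝ := fun j y => (pj r j).eval y with hp
  set P0 : Polynomial ℝ := ∑ j : Fin (2 * r + 2), Polynomial.C (g (π * x j)).re * pj r j with hP0
  set Q0 : Polynomial ℝ := ∑ j : Fin (2 * r + 2), Polynomial.C (g (π * x j)).im * pj r j with hQ0
  have hP0e : ∀ y, P0.eval y = ∑ j, p j y * (g (π * x j)).re := by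
    intro y
    rw [hP0, Polynomial.eval_finsetSum]
    refine Finset.sum_congr rfl fun j _ => ?_
    rw [Polynomial.eval_mul, Polynomial.eval_C, mul_comm]
  have hQ0e : ∀ y, Q0.eval y = ∑ j, p j y * (g (π * x j)).im := by
    intro y
    rw [hQ0, Polynomial.eval_finsetSum]
    refine Finset.sum_congr rfl fun j _ => ?_
    rw [Polynomial.eval_mul, Polynomial.eval_C, mul_comm]
  have hP0d : P0.natDegree ≤ 2 * r :=
    Polynomial.natDegree_sum_le_of_forall_le _ _ fun j _ =>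
      le_trans (Polynomial.natDegree_C_mul_le _ _) (pj_natDegree r j)
  have hQ0d : Q0.natDegree ≤ 2 * r :=
    Polynomial.natDegree_sum_le_of_forall_le _ _ fun j _ =>
      le_trans (Polynomial.natDegree_C_mul_le _ _) (pj_natDegree r j)
  set ell : Polynomial ℝ := Polynomial.C 2 * Polynomial.X - Polynomial.C 1 with hell
  have helld : ell.natDegree ≤ 1 := by
    rw [hell]
    refine le_trans (Polynomial.natDegree_sub_le _ _) ?_
    refine max_le ?_ (by simp)
    exact le_trans (Polynomial.natDegree_C_mul_le _ _) (by simp)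
  have helle : ∀ t, ell.eval t = 2 * t - 1 := by intro t; simp [hell]
  -- the curve in the variable of [-1,1]
  set Z : ℝ → ℂ := fun y => ⟨P0.eval y, Q0.eval y⟩ with hZ
  have hZre : ∀ y ∈ Icc (-1 : ℝ) 1, ∀ v : ℂ, (Z y - v).re = ∑ j, p j y * (g (π * x j) - v).re := by
    intro y hy v
    simp only [hZ, Complex.sub_re, mul_sub]
    rw [Finset.sum_sub_distrib, ← Finset.sum_mul, hS.sum_one y hy, hP0e]; ring
  have hZim : ∀ y ∈ Icc (-1 : ℝ) 1, ∀ v : ℂ, (Z y - v).im = ∑ j, p j y * (g (π * x j) - v).im := by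
    intro y hy v
    simp only [hZ, Complex.sub_im, mul_sub]
    rw [Finset.sum_sub_distrib, ← Finset.sum_mul, hS.sum_one y hy, hQ0e]; ring
  have hZK : ∀ y ∈ Icc (-1 : ℝ) 1, Z y ∈ K := by
    intro y hy
    have h1 : ∑ j, p j y • g (π * x j) ∈ K :=
      hK.sum_mem (fun j _ => hS.nonneg j y hy) (hS.sum_one y hy) (fun j _ => hgK _)
    have h2 : Z y = ∑ j, p j y • g (π * x j) := by
      apply Complex.ext
      · rw [Complex.re_sum]
        have := hZre y hy 0
        simp only [sub_zero] at this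
        rw [this]
        refine Finset.sum_congr rfl fun j _ => ?_
        simp
      · rw [Complex.im_sum]
        have := hZim y hy 0
        simp only [sub_zero] at this
        rw [this]
        refine Finset.sum_congr rfl fun j _ => ?_
        simp
    rw [h2]; exact h1
  have hpi0 : 0 < π := pi_pos
  have hpi4 : π ≤ 4 := pi_le_four
  have hA : ∀ y ∈ Icc (-1 : ℝ) 1, ∃ q ∈ frontier K, ‖Z y - q‖ ≤ 1501 * δ := by
    intro y hy
    obtain ⟨a, b, hab, hsup, hloc⟩ := local_data hz0 hgK hg (π * y)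
    set v0 := g (π * y) with hv0
    set η : ℝ := -(a * (Z y - v0).re + b * (Z y - v0).im) with hη
    have hηe : η = ∑ j, p j y * -(a * (g (π * x j) - v0).re + b * (g (π * x j) - v0).im) := by
      rw [hη, hZre y hy v0, hZim y hy v0, Finset.mul_sum, Finset.mul_sum,
        ← Finset.sum_add_distrib, ← Finset.sum_neg_distrib]
      refine Finset.sum_congr rfl fun j _ => ?_
      ring
    have hη0 : 0 ≤ η := by
      rw [hη]
      have := hsup _ (hZK y hy)
      linarith
    have hη1 : η ≤ 16 * δ := by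
      calc η ≤ ∑ j, p j y * (16 * (x j - y) ^ 2) := by
            rw [hηe]
            refine Finset.sum_le_sum fun j _ => ?_
            refine mul_le_mul_of_nonneg_left ?_ (hS.nonneg j y hy)
            refine le_trans (hloc (π * x j)).2.1 ?_
            have : (π * x j - π * y) ^ 2 = π ^ 2 * (x j - y) ^ 2 := by ring
            rw [this]
            refine mul_le_mul_of_nonneg_right ?_ (sq_nonneg _)
            nlinarith
        _ = 16 * ∑ j, p j y * (x j - y) ^ 2 := by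
            rw [Finset.mul_sum]
            refine Finset.sum_congr rfl fun j _ => ?_
            ring
        _ ≤ 16 * δ := by
            have := hS.moment y hy
            linarith
    have hnn : ‖(⟨a, b⟩ : ℂ)‖ = 1 := by
      have h1 : ‖(⟨a, b⟩ : ℂ)‖ ^ 2 = 1 := by rw [norm_sq_re_im]; exact hab
      have h0 := norm_nonneg (⟨a, b⟩ : ℂ)
      nlinarith
    have hout : Z y + (η + δ) • (⟨a, b⟩ : ℂ) ∉ K := by
      intro hmem
      have h1 := hsup _ hmem
      have e1 : (Z y + (η + δ) • (⟨a, b⟩ : ℂ) - v0).re = (Z y - v0).re + (η + δ) * a := by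
        simp; ring
      have e2 : (Z y + (η + δ) • (⟨a, b⟩ : ℂ) - v0).im = (Z y - v0).im + (η + δ) * b := by
        simp; ring
      rw [e1, e2] at h1
      have e3 : a * ((Z y - v0).re + (η + δ) * a) + b * ((Z y - v0).im + (η + δ) * b) =
          -η + (η + δ) * (a ^ 2 + b ^ 2) := by rw [hη]; ring
      rw [e3, hab] at h1
      linarith
    obtain ⟨s, hs, hfr⟩ := seg_frontier (hZK y hy) hout
    refine ⟨_, hfr, ?_⟩
    have e4 : Z y - (Z y + s • (Z y + (η + δ) • (⟨a, b⟩ : ℂ) - Z y)) =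
        -((s * (η + δ)) • (⟨a, b⟩ : ℂ)) := by
      rw [add_sub_cancel_left, smul_smul]
      ring
    rw [e4, norm_neg, norm_smul, hnn, mul_one, Real.norm_of_nonneg (mul_nonneg hs.1 (by linarith))]
    have : s * (η + δ) ≤ 1 * (η + δ) := mul_le_mul_of_nonneg_right hs.2 (by linarith)
    linarith
  have hB : ∀ q ∈ frontier K, ∃ y ∈ Icc (-1 : ℝ) 1, ‖Z y - q‖ ≤ 1501 * δ := by
    intro q hq
    obtain ⟨θ0, hθ0, v, hv, hvi, hvq⟩ := cover_frontier hc hK hz0 hq hδ0
    have hvg : v = g θ0 := proj_unique hv (hgK θ0) hvi (hg θ0)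
    obtain ⟨a, b, hab, hsup, hloc⟩ := local_data hz0 hgK hg θ0
    set x0 : ℝ := θ0 / π with hx0
    have hθx : θ0 = π * x0 := by rw [hx0]; field_simp
    have hx0m : x0 ∈ Icc (-1 : ℝ) 1 := by
      rw [hx0]
      constructor
      · rw [le_div_iff₀ hpi0]; linarith [hθ0.1]
      · rw [div_le_iff₀ hpi0]; linarith [hθ0.2]
    have habs : ∀ j, |π * x j - θ0| = π * |x j - x0| := by
      intro j
      rw [hθx, ← mul_sub, abs_mul, abs_of_pos hpi0]
    obtain ⟨y, hy, hyF, hyH⟩ := cover hS (A := 16) (b := 1 / 16) (by norm_num) (by norm_num)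
      (by norm_num)
      (F := fun j => a * (g (π * x j) - g θ0).im - b * (g (π * x j) - g θ0).re)
      (H := fun j => -(a * (g (π * x j) - g θ0).re + b * (g (π * x j) - g θ0).im))
      (x0 := x0) hx0m
      (fun j => by
        refine le_trans (hloc (π * x j)).2.1 ?_
        have : (π * x j - θ0) ^ 2 = π ^ 2 * (x j - x0) ^ 2 := by rw [hθx]; ring
        rw [this]
        refine mul_le_mul_of_nonneg_right ?_ (sq_nonneg _)
        nlinarith)
      (fun j => by
        refine le_trans (hloc (π * x j)).2.2.1 ?_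
        rw [habs]
        have := abs_nonneg (x j - x0)
        nlinarith)
      (fun j hj => by
        have h1 : |π * x j - θ0| ≤ 1 / 4 := by
          rw [habs]
          have := abs_nonneg (x j - x0)
          nlinarith
        obtain ⟨h2, h3⟩ := (hloc (π * x j)).2.2.2 h1
        refine ⟨le_trans h2 ?_, ?_⟩
        · refine mul_le_mul_of_nonneg_right ?_ (abs_nonneg _)
          rw [habs]
          have := abs_nonneg (x j - x0)
          nlinarith
        · have e : (π * x j - θ0) = π * (x j - x0) := by rw [hθx]; ring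
          rw [e, mul_assoc] at h3
          exact nonneg_of_mul_nonneg_right h3 hpi0)
    refine ⟨y, hy, ?_⟩
    set SF := ∑ j, p j y * (a * (g (π * x j) - g θ0).im - b * (g (π * x j) - g θ0).re) with hSF
    set SH := ∑ j, p j y * -(a * (g (π * x j) - g θ0).re + b * (g (π * x j) - g θ0).im) with hSH
    have hSH0 : 0 ≤ SH := Finset.sum_nonneg fun j _ =>
      mul_nonneg (hS.nonneg j y hy) (hloc (π * x j)).1
    have hSFe : SF = a * (Z y - g θ0).im - b * (Z y - g θ0).re := by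
      rw [hSF, hZre y hy, hZim y hy, Finset.mul_sum, Finset.mul_sum, ← Finset.sum_sub_distrib]
      refine Finset.sum_congr rfl fun j _ => ?_
      ring
    have hSHe : SH = -(a * (Z y - g θ0).re + b * (Z y - g θ0).im) := by
      rw [hSH, hZre y hy, hZim y hy, Finset.mul_sum, Finset.mul_sum, ← Finset.sum_add_distrib,
        ← Finset.sum_neg_distrib]
      refine Finset.sum_congr rfl fun j _ => ?_
      ring
    have hnsq : ‖Z y - g θ0‖ ^ 2 = SF ^ 2 + SH ^ 2 := by
      rw [norm_sq_re_im, hSFe, hSHe]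
      have : (a * (Z y - g θ0).im - b * (Z y - g θ0).re) ^ 2 +
          (-(a * (Z y - g θ0).re + b * (Z y - g θ0).im)) ^ 2 =
          (a ^ 2 + b ^ 2) * ((Z y - g θ0).re ^ 2 + (Z y - g θ0).im ^ 2) := by ring
      rw [this, hab, one_mul]
    have hF2 : SF ^ 2 ≤ (1024 * δ) ^ 2 := by
      rw [← sq_abs SF]
      have h1 : |SF| ≤ 1024 * δ := by
        refine le_trans hyF (le_of_eq ?_)
        norm_num
      exact pow_le_pow_left₀ (abs_nonneg _) h1 2
    have hH2 : SH ^ 2 ≤ (1088 * δ) ^ 2 := by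
      have h1 : SH ≤ 1088 * δ := by
        refine le_trans hyH (le_of_eq ?_)
        norm_num
      exact pow_le_pow_left₀ hSH0 h1 2
    have hn : ‖Z y - g θ0‖ ≤ 1500 * δ := by
      refine le_of_sq_le_sq ?_ (by positivity)
      rw [hnsq]
      nlinarith [sq_nonneg δ]
    have htri : ‖Z y - q‖ ≤ ‖Z y - g θ0‖ + ‖v - q‖ := by
      have e : Z y - q = (Z y - g θ0) + (v - q) := by rw [hvg]; ring
      rw [e]; exact norm_add_le _ _
    linarith
  refine ⟨P0.comp ell, Q0.comp ell, ?_, ?_, ?_, ?_⟩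
  · refine le_trans Polynomial.natDegree_comp_le ?_
    calc P0.natDegree * ell.natDegree ≤ (2 * r) * 1 := Nat.mul_le_mul hP0d helld
      _ = _ := by ring
  · refine le_trans Polynomial.natDegree_comp_le ?_
    calc Q0.natDegree * ell.natDegree ≤ (2 * r) * 1 := Nat.mul_le_mul hQ0d helld
      _ = _ := by ring
  · intro t ht
    obtain ⟨q, hq, h⟩ := hA (2 * t - 1) ⟨by linarith [ht.1], by linarith [ht.2]⟩
    refine ⟨q, hq, ?_⟩
    rw [Polynomial.eval_comp, Polynomial.eval_comp, helle]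
    exact h
  · intro q hq
    obtain ⟨y, hy, h⟩ := hB q hq
    refine ⟨(y + 1) / 2, ⟨by linarith [hy.1], by linarith [hy.2]⟩, ?_⟩
    rw [Polynomial.eval_comp, Polynomial.eval_comp, helle]
    have e : 2 * ((y + 1) / 2) - 1 = y := by ring
    rw [e]
    exact h

end Pool.Agent.K4H74.PC
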