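import Mathlib
import Pool.Agent.K4H74.PC.Upper
import Pool.Agent.K4H74.PC.Poly

namespace Pool.Agent.K4H74.PC

open Set MeasureTheory Measure
open scoped ENNReal Pointwise

theorem dist_le_toC (p q : ℝ × ℝ) : dist p q ≤ ‖toC q - toC p‖ := by
  rw [Prod.dist_eq, Real.dist_eq, Real.dist_eq]
  refine max_le ?_ ?_
  · have := Complex.abs_re_le_norm (toC q - toC p)
    rw [abs_sub_comm]
    simpa [toC] using this
  · have := Complex.abs_im_le_norm (toC q - toC p)
    rw [abs_sub_comm]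
    simpa [toC] using this

/-- The upper bound for one curve. -/
theorem upper_one {K : Set (ℝ × ℝ)} (hc : IsCompact K) (hK : Convex ℝ K) (hne : K.Nonempty)
    (hlen : len (frontier K) ≤ 1) (n : ℕ) :
    ∃ P Q : Polynomial ℝ, P.natDegree ≤ n ∧ Q.natDegree ≤ n ∧
      Metric.hausdorffEDist (frontier K) ((fun t : ℝ => (P.eval t, Q.eval t)) '' Icc 0 1) ≤
        ENNReal.ofReal (36024 / ((n : ℝ) + 1) ^ 2) := by
  obtain ⟨p0, hp0⟩ := hne
  have hz0 : ∀ z ∈ toC '' K, ‖z - toC p0‖ ≤ 1 := by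
    intro z hz
    have h1 := diam_le_length (toC_compact hc) (toC_convex hK) (Set.mem_image_of_mem toC hp0) hz
    rw [← toC_frontier] at h1
    have h2 : ENNReal.ofReal ‖z - toC p0‖ ≤ 1 := le_trans h1 hlen
    rwa [ENNReal.ofReal_le_one] at h2
  obtain ⟨P, Q, hP, hQ, h1, h2⟩ := upper_C (toC_compact hc) (toC_convex hK)
    ⟨_, Set.mem_image_of_mem toC hp0⟩ hz0 (n / 2)
  have hdiv : 2 * (n / 2) ≤ n := Nat.mul_div_le n 2
  have hdiv2 : n + 1 ≤ 2 * (n / 2 + 1) := by omega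
  have hdiv3 : ((n : ℝ) + 1) ≤ 2 * (((n / 2 : ℕ) : ℝ) + 1) := by exact_mod_cast hdiv2
  have hconst : 1501 * (6 / (((n / 2 : ℕ) : ℝ) + 1) ^ 2) ≤ 36024 / ((n : ℝ) + 1) ^ 2 := by
    rw [mul_div_assoc', div_le_div_iff₀ (by positivity) (by positivity)]
    have h0 : (0 : ℝ) ≤ (n : ℝ) + 1 := by positivity
    nlinarith
  refine ⟨P, Q, by omega, by omega, ?_⟩
  apply Metric.hausdorffEDist_le_of_mem_edist
  · intro x hx
    have hx' : toC x ∈ frontier (toC '' K) := by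
      rw [← toC_frontier]; exact Set.mem_image_of_mem toC hx
    obtain ⟨t, ht, h⟩ := h2 _ hx'
    refine ⟨_, ⟨t, ht, rfl⟩, ?_⟩
    rw [edist_dist]
    apply ENNReal.ofReal_le_ofReal
    exact le_trans (dist_le_toC _ _) (le_trans h hconst)
  · rintro _ ⟨t, ht, rfl⟩
    obtain ⟨y, hy, h⟩ := h1 t ht
    rw [← toC_frontier] at hy
    obtain ⟨x, hx, rfl⟩ := hy
    refine ⟨x, hx, ?_⟩
    rw [edist_comm, edist_dist]
    apply ENNReal.ofReal_le_ofReal
    exact le_trans (dist_le_toC _ _) (le_trans h hconst)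

theorem len_smul {c : ℝ} (hc : c ≠ 0) (F : Set (ℝ × ℝ)) :
    len (c • F) = ENNReal.ofReal |c| * len F := by
  unfold len
  have h1 : toC '' (c • F) = c • (toC '' F) := by
    rw [← Set.image_smul, ← Set.image_smul, Set.image_image, Set.image_image]
    refine Set.image_congr fun p _ => ?_
    apply Complex.ext <;> simp [toC]
  rw [h1, Measure.hausdorffMeasure_smul₀ zero_le_one hc, NNReal.rpow_one, ENNReal.smul_def,
    smul_eq_mul]
  congr 1
  rw [← Real.norm_eq_abs, ofReal_norm]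
  rfl

theorem frontier_smul_set {c : ℝ} (hc : c ≠ 0) (K : Set (ℝ × ℝ)) :
    frontier (c • K) = c • frontier K := by
  have := (Homeomorph.smulOfNeZero c hc : ℝ × ℝ ≃ₜ ℝ × ℝ).image_frontier K
  simpa [← Set.image_smul] using this.symm

/-- The lower bound: a closed convex curve of length one that is badly approximated. -/
theorem lower_one {n : ℕ} (hn : 1 ≤ n) : ∃ K : Set (ℝ × ℝ), IsCompact K ∧ Convex ℝ K ∧
    (interior K).Nonempty ∧ len (frontier K) = 1 ∧
    ∀ P Q : Polynomial ℝ, P.natDegree ≤ n → Q.natDegree ≤ n →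
      ENNReal.ofReal (1 / (200 * ((n : ℝ) + 1) ^ 2)) ≤
        Metric.hausdorffEDist (frontier K) ((fun t : ℝ => (P.eval t, Q.eval t)) '' Icc 0 1) := by
  set k := n + 1 with hk
  have hk2 : 2 ≤ k := by omega
  have hk0 : (0 : ℝ) < k := by positivity
  have hlt : len (frontier (K0 k)) ≠ ⊤ := ne_top_of_le_ne_top ENNReal.ofReal_ne_top (len_K0_le hk2)
  set ℓ : ℝ := (len (frontier (K0 k))).toReal with hℓ
  have hℓe : len (frontier (K0 k)) = ENNReal.ofReal ℓ := by rw [hℓ, ENNReal.ofReal_toReal hlt]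
  have hℓ1 : 1 ≤ ℓ := by
    have := one_le_len_K0 hk2
    rw [hℓe, ENNReal.one_le_ofReal] at this
    exact this
  have hℓ5 : ℓ ≤ 5 := by
    have := len_K0_le hk2
    rw [hℓe, ENNReal.ofReal_le_ofReal_iff (by norm_num)] at this
    exact this
  have hℓ0 : 0 < ℓ := by linarith
  have hℓne : ℓ ≠ 0 := hℓ0.ne'
  have hc : (ℓ⁻¹ : ℝ) ≠ 0 := inv_ne_zero hℓne
  refine ⟨ℓ⁻¹ • K0 k, (K0_compact hk2).smul _, (K0_convex k).smul _, ?_, ?_, ?_⟩
  · rw [interior_smul₀ hc]
    exact (K0_interior hk2).smul_set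
  · rw [frontier_smul_set hc, len_smul hc, hℓe, ← ENNReal.ofReal_mul (abs_nonneg _),
      abs_of_pos (by positivity), inv_mul_cancel₀ hℓne, ENNReal.ofReal_one]
  · intro P Q hP hQ
    by_contra hcon
    push Not at hcon
    rw [frontier_smul_set hc] at hcon
    have hcast : ((n : ℝ) + 1) = (k : ℝ) := by rw [hk]; push_cast; ring
    rw [hcast] at hcon
    set ε' : ℝ := 1 / (200 * (k : ℝ) ^ 2) with hε'
    have hε'0 : 0 < ε' := by positivity
    have key : ∀ w : ℝ × ℝ, ∀ y : ℝ × ℝ, dist (ℓ⁻¹ • w) y < ε' →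
        |w.1 - ℓ * y.1| < ℓ * ε' ∧ |w.2 - ℓ * y.2| < ℓ * ε' := by
      intro w y h
      rw [Prod.dist_eq, max_lt_iff, Real.dist_eq, Real.dist_eq] at h
      simp only [Prod.smul_fst, Prod.smul_snd, smul_eq_mul] at h
      have e1 : w.1 - ℓ * y.1 = ℓ * (ℓ⁻¹ * w.1 - y.1) := by field_simp
      have e2 : w.2 - ℓ * y.2 = ℓ * (ℓ⁻¹ * w.2 - y.2) := by field_simp
      rw [e1, e2, abs_mul, abs_mul, abs_of_pos hℓ0]
      exact ⟨mul_lt_mul_of_pos_left h.1 hℓ0, mul_lt_mul_of_pos_left h.2 hℓ0⟩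
    apply lower_core (k := k) (n := n) hk2 (by omega)
      (P := Polynomial.C ℓ * P) (Q := Polynomial.C ℓ * Q)
      (le_trans (Polynomial.natDegree_C_mul_le _ _) hP)
      (le_trans (Polynomial.natDegree_C_mul_le _ _) hQ) (ε := ℓ * ε')
    · rw [hε', mul_one_div, div_le_div_iff₀ (by positivity) (by positivity)]
      nlinarith [sq_nonneg (k : ℝ)]
    · intro i hi
      have hmem : ℓ⁻¹ • (((i : ℝ) / k, ((i : ℝ) / k) ^ 2) : ℝ × ℝ) ∈ ℓ⁻¹ • frontier (K0 k) :=
        Set.smul_mem_smul_set (vertex_mem hk2 hi)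
      obtain ⟨_, ⟨t, ht, rfl⟩, h⟩ := Metric.exists_edist_lt_of_hausdorffEDist_lt hmem hcon
      rw [edist_dist, ENNReal.ofReal_lt_ofReal_iff hε'0] at h
      refine ⟨t, ht, ?_⟩
      have := key _ _ h
      simpa using this
    · intro t ht
      obtain ⟨x, hx, h⟩ := Metric.exists_edist_lt_of_hausdorffEDist_lt
        (Set.mem_image_of_mem (fun t : ℝ => (P.eval t, Q.eval t)) ht)
        (by rw [Metric.hausdorffEDist_comm]; exact hcon)
      obtain ⟨w, hw, rfl⟩ := hx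
      rw [edist_comm, edist_dist, ENNReal.ofReal_lt_ofReal_iff hε'0] at h
      refine ⟨w, (K0_closed k).frontier_subset hw, ?_⟩
      have := key _ _ h
      simpa using this

end Pool.Agent.K4H74.PC
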